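import Pool.Agent.Lib.H17S.X.XA

set_option autoImplicit false

/-!
Chunk XT1 (S/M). The superposition operator `(τ, c, v, P, N) ↦ (n ↦ alt (τ, P, N, n, c v n))` into `C(S2, ℂ)` is continuous.
Proof. `altG` is `alt` with clamped parameters (`max 0 (min 1 τ) ∈ [0,1]`, `max P p1 >= p1 > 0`), so it is continuous everywhere: composition of the ContinuousOn `alt_cont` with a continuous map into its domain (`ContinuousOn.comp_continuous`).
`sup_ex`: `S p = ContinuousMap.curry` of the continuous map `(p, n) ↦ altG B k p1 (p.1, p.2.2.2.1, p.2.2.2.2) n (fun i => p.2.1 * p.2.2.1 n i)` on `(ℝ × ℝ × XS) × S2`; the evaluation `(v, n) ↦ v n` is continuous on `C(S2, Fin 3 → ℝ) × S2` as `S2` is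
(locally) compact (`ContinuousEval`, `continuous_eval`, `ContinuousMap.continuous_eval`); `ContinuousMap.curry` gives continuity of `p ↦ S p` in the compact-open topology, which is the topology of the normed space `C(S2, ℂ)`.
-/

open MeasureTheory Filter Topology Set
open scoped ContDiff ComplexConjugate

namespace H17S

open NullPen (E3 S2 sm proj)
open NullS (TE PE av)

variable {B : ℝ → ℝ → S2 → Fin 3 → Fin 3 → ℝ} {C : ℝ}

/-- The space of the homotopy: `(v, P, N)`. -/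
abbrev XS : Type := C(S2, Fin 3 → ℝ) × ℝ × ℝ

/-- `alt` with clamped parameters. -/
noncomputable def altG (B : ℝ → ℝ → S2 → Fin 3 → Fin 3 → ℝ) (k p1 : ℝ) (p : ℝ × ℝ × ℝ) (n : S2) (V : Fin 3 → ℝ) : ℂ :=
  alt B k (max 0 (min 1 p.1)) (max p.2.1 p1) p.2.2 n V

theorem altG_cont (hB : Fam B C) {k : ℝ} (hk : k ∈ Ioo (0 : ℝ) 1) {p1 : ℝ} (h1 : 0 < p1) :
    Continuous (fun q : (ℝ × ℝ × ℝ) × S2 × (Fin 3 → ℝ) => altG B k p1 q.1 q.2.1 q.2.2) := by
  have hc : Continuous (fun q : (ℝ × ℝ × ℝ) × S2 × (Fin 3 → ℝ) =>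
      (((max 0 (min 1 q.1.1), max q.1.2.1 p1, q.1.2.2), q.2.1, q.2.2) : (ℝ × ℝ × ℝ) × S2 × (Fin 3 → ℝ))) := by
    fun_prop
  have hm : ∀ q : (ℝ × ℝ × ℝ) × S2 × (Fin 3 → ℝ),
      (((max 0 (min 1 q.1.1), max q.1.2.1 p1, q.1.2.2), q.2.1, q.2.2) : (ℝ × ℝ × ℝ) × S2 × (Fin 3 → ℝ)) ∈
        ((Icc (0 : ℝ) 1 ×ˢ (Ioi (0 : ℝ) ×ˢ (univ : Set ℝ))) ×ˢ (univ : Set (S2 × (Fin 3 → ℝ)))) := by
    intro q
    refine ⟨⟨⟨le_max_left _ _, max_le zero_le_one (min_le_left _ _)⟩, ?_, trivial⟩, trivial⟩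
    exact lt_of_lt_of_le h1 (le_max_right _ _)
  exact (alt_cont hB hk).comp_continuous hc hm

theorem sup_ex (hB : Fam B C) {k : ℝ} (hk : k ∈ Ioo (0 : ℝ) 1) {p1 : ℝ} (h1 : 0 < p1) :
    ∃ S : ℝ × ℝ × XS → C(S2, ℂ), Continuous S ∧
      ∀ p n, S p n = altG B k p1 (p.1, p.2.2.2.1, p.2.2.2.2) n (fun i => p.2.1 * p.2.2.1 n i) := by
  have h : Continuous (fun q : (ℝ × ℝ × XS) × S2 =>
      altG B k p1 (q.1.1, q.1.2.2.2.1, q.1.2.2.2.2) q.2 (fun i => q.1.2.1 * q.1.2.2.1 q.2 i)) := by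
    have he : Continuous (fun q : (ℝ × ℝ × XS) × S2 => q.1.2.2.1 q.2) :=
      Continuous.eval (by fun_prop) (by fun_prop)
    have hv : Continuous (fun q : (ℝ × ℝ × XS) × S2 => (fun i : Fin 3 => q.1.2.1 * q.1.2.2.1 q.2 i)) :=
      continuous_pi fun i => Continuous.mul (by fun_prop) ((continuous_apply i).comp he)
    have h3 : Continuous (fun q : (ℝ × ℝ × XS) × S2 =>
        (((q.1.1, q.1.2.2.2.1, q.1.2.2.2.2), q.2, (fun i : Fin 3 => q.1.2.1 * q.1.2.2.1 q.2 i)) :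
          (ℝ × ℝ × ℝ) × S2 × (Fin 3 → ℝ))) := by
      refine Continuous.prodMk (by fun_prop) (Continuous.prodMk continuous_snd hv)
    exact (altG_cont hB hk h1).comp h3
  refine ⟨fun p => ContinuousMap.curry ⟨_, h⟩ p, (ContinuousMap.curry ⟨_, h⟩).continuous, fun p n => rfl⟩

end H17S
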