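import Pool.Agent.Lib.H17S.X.X0
import Pool.Agent.Lib.H17S.K.K3
import Pool.Agent.Lib.H17S.K.K5
import Pool.Agent.Lib.H17S.K.K6
import Pool.Agent.Lib.H17S.K.K9

set_option autoImplicit false

/-!
Chunk XT2 (M). The operator `g ↦ TE ε (2 Re g, 2 Im g)` from `C(S2, ℂ)` to `C(S2, Fin 3 → ℝ)` is continuous, with bounds.
Proof. `TE ε g1 g2` restricted to the sphere is continuous (`TE_smooth`), this defines `T g` (`ContinuousMap.mk`, `continuous_pi`). `|TE ε g1 g2 n i| <= vnrm (TE ε g1 g2 n) <= 3 M` if `g1² + g2² <= M²` (`TE_bd`), and `(2 Re g)² + (2 Im g)² = (2 ‖g m‖)² <= (2 ‖g‖)²`.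
`T g - T h = T (g - h)` (`TE_sub`), so `‖T g - T h‖ <= 6 ‖g - h‖` (`ContinuousMap.norm_le`, `pi_norm_le_iff_of_nonneg`): Lipschitz, so continuous. The Hoelder bound: `TE_hold`, `|v i| <= vnrm v`.
-/

open MeasureTheory Filter Topology Set
open scoped ContDiff ComplexConjugate

namespace H17S

open NullPen (E3 S2 sm proj)
open NullS (TE PE av)

theorem xt2_abs (v : Fin 3 → ℝ) (i : Fin 3) : |v i| ≤ NullU.vnrm v := by
  unfold NullU.vnrm
  apply Real.abs_le_sqrt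
  exact Finset.single_le_sum (f := fun j => v j ^ 2) (fun j _ => sq_nonneg _) (Finset.mem_univ i)

theorem xt2_c1 (g : C(S2, ℂ)) : Continuous (fun m : S2 => 2 * (g m).re) :=
  continuous_const.mul (Complex.continuous_re.comp g.continuous)

theorem xt2_c2 (g : C(S2, ℂ)) : Continuous (fun m : S2 => 2 * (g m).im) :=
  continuous_const.mul (Complex.continuous_im.comp g.continuous)

theorem xt2_sq {g : C(S2, ℂ)} {M : ℝ} (hM : ‖g‖ ≤ M) (m : S2) : (2 * (g m).re) ^ 2 + (2 * (g m).im) ^ 2 ≤ (2 * M) ^ 2 := by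
  have h1 : ‖g m‖ ≤ M := (g.norm_coe_le_norm m).trans hM
  have h2 : ‖g m‖ ^ 2 = (g m).re * (g m).re + (g m).im * (g m).im := by
    rw [Complex.sq_norm, Complex.normSq_apply]
  have h3 : ‖g m‖ ^ 2 ≤ M ^ 2 := pow_le_pow_left₀ (norm_nonneg _) h1 2
  nlinarith

theorem xt2_bd {ε : ℝ} (hε : 0 < ε) (hε1 : ε ≤ 1) {g : C(S2, ℂ)} {M : ℝ} (hM : ‖g‖ ≤ M) (n : S2) (i : Fin 3) :
    |TE ε (fun m => 2 * (g m).re) (fun m => 2 * (g m).im) n i| ≤ 6 * M := by
  have h0 : 0 ≤ M := (norm_nonneg _).trans hM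
  refine (xt2_abs _ i).trans ?_
  refine (NullS.TE_bd hε hε1 (xt2_c1 g) (xt2_c2 g) (xt2_sq hM) (by linarith) n).trans ?_
  linarith

theorem op_ex {ε : ℝ} (hε : 0 < ε) (hε1 : ε ≤ 1) : ∃ T : C(S2, ℂ) → C(S2, Fin 3 → ℝ), Continuous T ∧
    (∀ g n i, T g n i = TE ε (fun m => 2 * (g m).re) (fun m => 2 * (g m).im) n i) ∧
    ∀ (g : C(S2, ℂ)) (M : ℝ), ‖g‖ ≤ M → (∀ n i, |T g n i| ≤ 6 * M) ∧ ∀ n n' i, |T g n i - T g n' i| ≤ 200 * M * Real.sqrt (dist n n') := by
  obtain ⟨T, hT⟩ : ∃ T : C(S2, ℂ) → C(S2, Fin 3 → ℝ),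
      ∀ g n i, T g n i = TE ε (fun m => 2 * (g m).re) (fun m => 2 * (g m).im) n i := by
    refine ⟨fun g => ⟨fun n i => TE ε (fun m => 2 * (g m).re) (fun m => 2 * (g m).im) n i,
      continuous_pi fun i => ?_⟩, fun g n i => rfl⟩
    exact (NullS.TE_smooth hε (xt2_c1 g) (xt2_c2 g) i).continuous.comp continuous_subtype_val
  have hb : ∀ (g : C(S2, ℂ)) (M : ℝ), ‖g‖ ≤ M → ∀ n i, |T g n i| ≤ 6 * M := by
    intro g M hM n i
    rw [hT]
    exact xt2_bd hε hε1 hM n i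
  refine ⟨T, ?_, hT, fun g M hM => ⟨hb g M hM, fun n n' i => ?_⟩⟩
  · have hL : LipschitzWith 6 T := by
      refine LipschitzWith.of_dist_le_mul fun g h => ?_
      have h6 : (0 : ℝ) ≤ 6 * dist g h := by positivity
      rw [NNReal.coe_ofNat, ContinuousMap.dist_le h6]
      intro n
      rw [dist_pi_le_iff h6]
      intro i
      have h1 : T g n i - T h n i = T (g - h) n i := by
        rw [hT, hT, hT, ← NullS.TE_sub hε (xt2_c1 g) (xt2_c2 g) (xt2_c1 h) (xt2_c2 h)]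
        congr 1
        · funext m
          rw [ContinuousMap.sub_apply, Complex.sub_re]
          ring
        · funext m
          rw [ContinuousMap.sub_apply, Complex.sub_im]
          ring
      rw [Real.dist_eq, h1, dist_eq_norm]
      exact hb (g - h) _ le_rfl n i
    exact hL.continuous
  · have h0 : 0 ≤ M := (norm_nonneg _).trans hM
    rw [hT, hT]
    refine (xt2_abs (fun k => TE ε (fun m => 2 * (g m).re) (fun m => 2 * (g m).im) n k -
      TE ε (fun m => 2 * (g m).re) (fun m => 2 * (g m).im) n' k) i).trans ?_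
    refine (NullS.TE_hold hε hε1 (xt2_c1 g) (xt2_c2 g) (xt2_sq hM) (by linarith) n n').trans ?_
    apply le_of_eq
    ring

end H17S
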