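import Mathlib

set_option autoImplicit false

/-!
Chunk XT3 (M, pure Mathlib). Bounded sets of Hoelder functions are relatively compact (Arzela-Ascoli).
Proof. Mathlib: `BoundedContinuousFunction.arzela_ascoli` (closed set version: `arzela_ascoli₁`, `arzela_ascoli₂`) for bounded continuous functions on a compact space with values in a compact subset, with `BoundedContinuousFunction` and `C(α, β)` identified for compact `α`
(`ContinuousMap.equivBoundedOfCompact`, an isometry: `ContinuousMap.isometryEquivBoundedOfCompact`), or the versions for `ContinuousMap` / `UniformFun` in `Mathlib/Topology/UniformSpace/Ascoli.lean`. The set is closed (all conditions are closed), its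
values lie in the compact set `{w | ∀ i, |w i| <= M}` (a closed box in `Fin 3 → ℝ`), and it is equicontinuous (modulus `A sqrt (dist)`: `equicontinuous_of_continuity_modulus`).
-/

open MeasureTheory Filter Topology Set

namespace H17S

theorem holder_compact {α : Type} [MetricSpace α] [CompactSpace α] (M A : ℝ) :
    IsCompact {v : C(α, Fin 3 → ℝ) | (∀ n i, |v n i| ≤ M) ∧ ∀ n n' i, |v n i - v n' i| ≤ A * Real.sqrt (dist n n')} := by
  set B : Set (BoundedContinuousFunction α (Fin 3 → ℝ)) :=
    {v | (∀ n i, |v n i| ≤ M) ∧ ∀ n n' i, |v n i - v n' i| ≤ A * Real.sqrt (dist n n')} with hB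
  have hev : ∀ (n : α) (i : Fin 3), Continuous (fun v : BoundedContinuousFunction α (Fin 3 → ℝ) => v n i) :=
    fun n i => (continuous_apply i).comp (continuous_eval_const n)
  have hcl : IsClosed B := by
    have h1 : B = (⋂ n, ⋂ i, {v : BoundedContinuousFunction α (Fin 3 → ℝ) | |v n i| ≤ M}) ∩
        ⋂ n, ⋂ n', ⋂ i, {v : BoundedContinuousFunction α (Fin 3 → ℝ) | |v n i - v n' i| ≤ A * Real.sqrt (dist n n')} := by
      ext v
      simp [hB]
    rw [h1]
    refine IsClosed.inter ?_ ?_
    · exact isClosed_iInter fun n => isClosed_iInter fun i => isClosed_le (hev n i).abs continuous_const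
    · exact isClosed_iInter fun n => isClosed_iInter fun n' => isClosed_iInter fun i =>
        isClosed_le ((hev n i).sub (hev n' i)).abs continuous_const
  have hK : IsCompact (Set.pi univ (fun _ : Fin 3 => Icc (-M) M)) := isCompact_univ_pi fun _ => isCompact_Icc
  have hcomp : IsCompact B := by
    refine BoundedContinuousFunction.arzela_ascoli₂ _ hK B hcl ?_ ?_
    · intro f x hf i _
      exact abs_le.1 (hf.1 x i)
    · refine Metric.equicontinuous_of_continuity_modulus (fun d => |A| * Real.sqrt d) ?_ _ ?_
      · exact (continuous_const.mul Real.continuous_sqrt).tendsto' 0 0 (by simp)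
      · intro x y f
        rw [dist_pi_le_iff (by positivity)]
        intro i
        rw [Real.dist_eq]
        refine (f.2.2 x y i).trans ?_
        exact mul_le_mul_of_nonneg_right (le_abs_self A) (Real.sqrt_nonneg _)
  have h2 := hcomp.image (ContinuousMap.isometryEquivBoundedOfCompact α (Fin 3 → ℝ)).symm.continuous
  have h3 : {v : C(α, Fin 3 → ℝ) | (∀ n i, |v n i| ≤ M) ∧ ∀ n n' i, |v n i - v n' i| ≤ A * Real.sqrt (dist n n')} =
      (ContinuousMap.isometryEquivBoundedOfCompact α (Fin 3 → ℝ)).symm '' B := by
    ext v
    constructor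
    · intro hv
      exact ⟨ContinuousMap.isometryEquivBoundedOfCompact α (Fin 3 → ℝ) v, hv,
        (ContinuousMap.isometryEquivBoundedOfCompact α (Fin 3 → ℝ)).symm_apply_apply v⟩
    · rintro ⟨w, hw, rfl⟩
      exact hw
  rw [h3]
  exact h2

end H17S
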