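import Pool.Agent.Lib.H17S.X.T4
import Pool.Agent.Lib.H17S.K.K5
import Pool.Agent.Lib.H17S.K.K8
import Pool.Agent.Lib.H17S.MA

set_option autoImplicit false

/-!
Chunk XT5 (S/M). The base case `τ = 0`: `N = 0` and `P` is close to `1`.
Proof. `ε0` of `eqc` for `2 η`. Let `V = TE ε g1 g2`, tangential on the sphere (`TE_tan`), so `c V` is tangential and `alt_zero` gives `alt = 1 - betam P N (min (nsq (c V)) ((1-k) Xc)) - N i`. So `g2 = - 2 N` is constant, `0 = av g2 = - 2 N` (`av_const`), `N = 0`, and `g2 = 0`.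
`g1 n = 2 (1 - betam (..)) >= 2 (1 - P)` (`beta_le`; the argument is `>= 0` and `<= (1 - k) Xc < Xc`, `Xc > 0`: `H17S.Xc_pos N hP` is in `Lib/H17S/MA.lean`), so `0 = av g1 >= 2 (1 - P)` (monotonicity of the integral, `int_S2`, `av_const`): `1 <= P`.
`TE_min`: there is `n` with `TE ε g1 (fun _ => 0) n = 0` and `av g1 <= PE ε g1 n`. As `g2 = fun _ => 0` (`funext`), `V n = 0`, `nsq (c V n) = 0`, `min 0 (..) = 0`, `g1 n = 2 (1 - betam P N 0) = 2 (1 - P)` (`beta_zero`), and `0 = av g1 <= PE g1 n <= g1 n + 2 η`: `P <= 1 + η`.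
-/

open MeasureTheory Filter Topology Set
open scoped ContDiff ComplexConjugate

namespace H17S

open NullPen (E3 S2 sm proj)
open NullS (TE PE av)

variable {B : ℝ → ℝ → S2 → Fin 3 → Fin 3 → ℝ} {C : ℝ}

theorem xt5_av {g h : S2 → ℝ} (cg : Continuous g) (ch : Continuous h) (hgh : ∀ m, g m ≤ h m) : av g ≤ av h := by
  unfold NullS.av
  exact div_le_div_of_nonneg_right (integral_mono (NullS.int_S2 cg) (NullS.int_S2 ch) hgh)
    (by have := Real.pi_pos; positivity)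

theorem base (hB : Fam B C) {k : ℝ} (hk : k ∈ Ioo (0 : ℝ) 1) {p1 p2 : ℝ} (h1 : 0 < p1) {η : ℝ} (hη : 0 < η) :
    ∃ ε0 ∈ Ioc (0 : ℝ) 1, ∀ ε ∈ Ioc (0 : ℝ) ε0, ∀ c ∈ Icc (0 : ℝ) 1, ∀ P N : ℝ, (P, N) ∈ Rec p1 p2 →
      ∀ g1 g2 : S2 → ℝ, Sol B k ε 0 c P N g1 g2 → N = 0 ∧ 1 ≤ P ∧ P ≤ 1 + η := by
  obtain ⟨ε0, hε0, heq⟩ := eqc (p2 := p2) hB hk h1 (mul_pos two_pos hη)
  refine ⟨ε0, hε0, fun ε hε c hc P N hPN g1 g2 hS => ?_⟩
  have hP : 0 < P := lt_of_lt_of_le h1 hPN.1.1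
  have hXc : 0 < Xc P N := Xc_pos N hP
  have hεp : 0 < ε := hε.1
  have halt : ∀ n : S2, alt B k 0 P N n (fun i => c * TE ε g1 g2 n i) =
      1 - (betam P N (min (nsq (fun i => c * TE ε g1 g2 n i)) ((1 - k) * Xc P N)) : ℂ) - (N : ℂ) * Complex.I := by
    intro n
    refine alt_zero hB hk hP n ?_
    have h2 := NullS.TE_tan hεp hS.c1 hS.c2 n
    calc ∑ i, (n : E3) i * (c * TE ε g1 g2 n i) = c * ∑ i, TE ε g1 g2 n i * (n : E3) i := by
          rw [Finset.mul_sum]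
          exact Finset.sum_congr rfl fun i _ => by ring
      _ = 0 := by rw [h2, mul_zero]
  have hg2 : g2 = fun _ => -2 * N := by
    funext n
    rw [hS.e2 n, halt n]
    simp
  have hN : N = 0 := by
    have h2 := hS.m2
    rw [hg2, NullS.av_const] at h2
    linarith
  have hg1 : ∀ n, g1 n = 2 * (1 - betam P N (min (nsq (fun i => c * TE ε g1 g2 n i)) ((1 - k) * Xc P N))) := by
    intro n
    rw [hS.e1 n, halt n]
    simp
  have hnsq : ∀ v : Fin 3 → ℝ, 0 ≤ nsq v := fun v => Finset.sum_nonneg fun i _ => sq_nonneg _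
  have hkX : 0 ≤ (1 - k) * Xc P N := mul_nonneg (by linarith [hk.2]) hXc.le
  have hkX' : (1 - k) * Xc P N < Xc P N := by nlinarith [hk.1]
  have hge : ∀ n, 2 * (1 - P) ≤ g1 n := by
    intro n
    rw [hg1 n]
    have h2 := beta_le (N := N) hP (le_min (hnsq (fun i => c * TE ε g1 g2 n i)) hkX)
      (lt_of_le_of_lt (min_le_right _ _) hkX')
    linarith
  have h1P : 1 ≤ P := by
    have h2 := xt5_av continuous_const hS.c1 hge
    rw [NullS.av_const, hS.m1] at h2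
    linarith
  refine ⟨hN, h1P, ?_⟩
  obtain ⟨n, hn, hav⟩ := NullS.TE_min hεp hS.c1
  have hg2' : g2 = fun _ => 0 := by
    rw [hg2, hN]
    simp
  have hz : nsq (fun i => c * TE ε g1 g2 n i) = 0 := by
    unfold nsq
    rw [hg2']
    simp [hn]
  have hgn : g1 n = 2 * (1 - P) := by
    rw [hg1 n, hz, min_eq_left hkX, beta_zero]
  have h3 := (heq ε hε 0 ⟨le_refl _, zero_le_one⟩ c hc P N hPN g1 g2 hS n).1
  rw [hgn] at h3
  rw [hS.m1] at hav
  have h4 := (abs_le.1 h3).2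
  linarith

end H17S
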