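import Pool.Agent.Lib.H17S.X.T4
import Pool.Agent.Lib.H17S.K.K5

set_option autoImplicit false

/-!
Chunk XT6 (M). Solutions with `c = 1` are good approximate solutions of the equation, given the weak maximum principle (hypothesis `hw`, the conclusion of `wmp` for this `k`).
Proof. `V = TE ε g1 g2` is `TF` (`TE_smooth`, `TE_tan`, commute the factors). Let `M, θ1` be as in `num_bd` and `η1 > 0` with `16 π M (2 η1)² <= η` (for instance `η1 = sqrt (η/(64 π M))`, or `η1 = min 1 (η/(64 π M + 1))`).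
`θ2` of `alt_near` for `η1`, `θ = min θ1 θ2`, `ε0 = min` of the ones of `hw θ` and `eqc η1`. Then `nsq V <= (1 - k) Xc + θ`, so `nsq V < Xc`, `‖alst - alt‖ <= η1`, `0 <= num <= M`. `dv V n = PE ε g1 n - av g1 = PE ε g1 n` (`TE_div`, `dv` and `cr` unfold to the same expression), `cl V n = PE ε g2 n`
(`TE_curl`), so `alD V n = (PE g1 + i PE g2)/2`, and `alt (n, V n) = (g1 n + i g2 n)/2` (`Sol.e1`, `Sol.e2` with `c = 1`: `(fun i => 1 * V n i) = V n`), so `‖alD V n - alt‖ <= (|PE g1 - g1| + |PE g2 - g2|)/2 <= η1`.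
So the integrand is between `0` and `M (2 η1)²`, and the integral is at most `4π M (2 η1)² <= η` (`integral_mono_of_nonneg` does not need integrability of the smaller function; `sm_real`).
-/

open MeasureTheory Filter Topology Set
open scoped ContDiff ComplexConjugate

namespace H17S

open NullPen (E3 S2 sm proj)
open NullS (TE PE av)

variable {B : ℝ → ℝ → S2 → Fin 3 → Fin 3 → ℝ} {C : ℝ}

theorem good (hB : Fam B C) {k : ℝ} (hk : k ∈ Ioo (0 : ℝ) 1) {p1 p2 : ℝ} (h1 : 0 < p1)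
    (hw : ∀ θ : ℝ, 0 < θ → ∃ ε0 ∈ Ioc (0 : ℝ) 1, ∀ ε ∈ Ioc (0 : ℝ) ε0, ∀ τ ∈ Icc (0 : ℝ) 1, ∀ P N : ℝ, (P, N) ∈ Rec p1 p2 →
      ∀ g1 g2 : S2 → ℝ, Sol B k ε τ 1 P N g1 g2 → ∀ n : S2, nsq (TE ε g1 g2 n) ≤ (1 - k) * Xc P N + θ) {η : ℝ} (hη : 0 < η) :
    ∃ ε0 ∈ Ioc (0 : ℝ) 1, ∀ ε ∈ Ioc (0 : ℝ) ε0, ∀ τ ∈ Icc (0 : ℝ) 1, ∀ P N : ℝ, (P, N) ∈ Rec p1 p2 →
      ∀ g1 g2 : S2 → ℝ, Sol B k ε τ 1 P N g1 g2 → TF (TE ε g1 g2) ∧ (∀ n : S2, nsq (TE ε g1 g2 n) < Xc P N) ∧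
        ∫ n : S2, num P N (nsq (TE ε g1 g2 n)) * ‖alD (TE ε g1 g2) n - alst P N (fun s => B τ s n) n (TE ε g1 g2 n)‖ ^ 2 ∂sm ≤ η := by
  obtain ⟨M, θ1, hM, hθ1, hnum⟩ := num_bd (p2 := p2) hk h1
  have hpi := Real.pi_pos
  set η1 : ℝ := Real.sqrt (η / (16 * Real.pi * M)) with hη1d
  have hη1 : 0 < η1 := Real.sqrt_pos.mpr (by positivity)
  have hη1sq : η1 ^ 2 = η / (16 * Real.pi * M) := Real.sq_sqrt (by positivity)
  obtain ⟨θ2, hθ2, hnear⟩ := alt_near (p2 := p2) hB hk h1 hη1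
  obtain ⟨ε1, hε1, hw1⟩ := hw (min θ1 θ2) (lt_min hθ1 hθ2)
  obtain ⟨ε2, hε2, he⟩ := eqc (p2 := p2) hB hk h1 hη1
  refine ⟨min ε1 ε2, ⟨lt_min hε1.1 hε2.1, (min_le_left _ _).trans hε1.2⟩, ?_⟩
  intro ε hε τ hτ P N hPN g1 g2 hs
  have hεa : ε ∈ Ioc (0 : ℝ) ε1 := ⟨hε.1, hε.2.trans (min_le_left _ _)⟩
  have hεb : ε ∈ Ioc (0 : ℝ) ε2 := ⟨hε.1, hε.2.trans (min_le_right _ _)⟩
  have hV : ∀ n : S2, nsq (TE ε g1 g2 n) ≤ (1 - k) * Xc P N + min θ1 θ2 := hw1 ε hεa τ hτ P N hPN g1 g2 hs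
  have hVa : ∀ n : S2, nsq (TE ε g1 g2 n) ≤ (1 - k) * Xc P N + θ1 := fun n =>
    (hV n).trans (by linarith [min_le_left θ1 θ2])
  have hVb : ∀ n : S2, nsq (TE ε g1 g2 n) ≤ (1 - k) * Xc P N + θ2 := fun n =>
    (hV n).trans (by linarith [min_le_right θ1 θ2])
  have hVn : ∀ n : S2, nsq (TE ε g1 g2 n) < Xc P N ∧
      ‖alst P N (fun s => B τ s n) n (TE ε g1 g2 n) - alt B k τ P N n (TE ε g1 g2 n)‖ ≤ η1 := fun n =>
    hnear τ hτ P N hPN n (TE ε g1 g2 n) (hVb n)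
  refine ⟨⟨fun i => NullS.TE_smooth hε.1 hs.c1 hs.c2 i, fun n => ?_⟩, fun n => (hVn n).1, ?_⟩
  · have h := NullS.TE_tan hε.1 hs.c1 hs.c2 n
    rw [← h]
    exact Finset.sum_congr rfl fun i _ => mul_comm _ _
  have hpt : ∀ n : S2, num P N (nsq (TE ε g1 g2 n)) *
      ‖alD (TE ε g1 g2) n - alst P N (fun s => B τ s n) n (TE ε g1 g2 n)‖ ^ 2 ≤ M * (2 * η1) ^ 2 ∧
      0 ≤ num P N (nsq (TE ε g1 g2 n)) *
      ‖alD (TE ε g1 g2) n - alst P N (fun s => B τ s n) n (TE ε g1 g2 n)‖ ^ 2 := by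
    intro n
    have hn0 : 0 ≤ nsq (TE ε g1 g2 n) := Finset.sum_nonneg fun i _ => sq_nonneg _
    obtain ⟨hnu0, hnuM⟩ := hnum P N (nsq (TE ε g1 g2 n)) hPN hn0 (hVa n)
    have hdv : dv (TE ε g1 g2) n = PE ε g1 n := by
      have h := NullS.TE_div hε.1 hs.c1 hs.c2 n
      rw [hs.m1, sub_zero] at h
      exact h
    have hcl : cl (TE ε g1 g2) n = PE ε g2 n := by
      have h := NullS.TE_curl hε.1 hs.c1 hs.c2 n
      rw [hs.m2, sub_zero] at h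
      exact h
    have hone : (fun i => 1 * TE ε g1 g2 n i) = TE ε g1 g2 n := by
      funext i
      rw [one_mul]
    have he1 := hs.e1 n
    have he2 := hs.e2 n
    rw [hone] at he1 he2
    have halt : alt B k τ P N n (TE ε g1 g2 n) = ((g1 n : ℂ) + (g2 n : ℂ) * Complex.I) / 2 := by
      apply Complex.ext
      · rw [he1, he2]
        simp
      · rw [he1, he2]
        simp
    obtain ⟨hp1, hp2⟩ := he ε hεb τ hτ 1 ⟨zero_le_one, le_refl _⟩ P N hPN g1 g2 hs n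
    have hd : ‖alD (TE ε g1 g2) n - alt B k τ P N n (TE ε g1 g2 n)‖ ≤ η1 := by
      have heq : alD (TE ε g1 g2) n - alt B k τ P N n (TE ε g1 g2 n) =
          (((PE ε g1 n - g1 n : ℝ) : ℂ) + ((PE ε g2 n - g2 n : ℝ) : ℂ) * Complex.I) / 2 := by
        rw [halt]
        unfold alD
        rw [hdv, hcl]
        push_cast
        ring
      rw [heq, norm_div]
      have h3 : ‖((PE ε g1 n - g1 n : ℝ) : ℂ) + ((PE ε g2 n - g2 n : ℝ) : ℂ) * Complex.I‖ ≤ η1 + η1 := by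
        refine (norm_add_le _ _).trans (add_le_add ?_ ?_)
        · rw [Complex.norm_real]
          exact hp1
        · rw [norm_mul, Complex.norm_I, mul_one, Complex.norm_real]
          exact hp2
      have h4 : ‖(2 : ℂ)‖ = 2 := by simp
      rw [h4]
      linarith
    have hd2 : ‖alD (TE ε g1 g2) n - alst P N (fun s => B τ s n) n (TE ε g1 g2 n)‖ ≤ 2 * η1 := by
      have h5 : alD (TE ε g1 g2) n - alst P N (fun s => B τ s n) n (TE ε g1 g2 n) =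
          (alD (TE ε g1 g2) n - alt B k τ P N n (TE ε g1 g2 n)) -
          (alst P N (fun s => B τ s n) n (TE ε g1 g2 n) - alt B k τ P N n (TE ε g1 g2 n)) := by ring
      rw [h5]
      refine (norm_sub_le _ _).trans ?_
      linarith [(hVn n).2]
    have h6 : ‖alD (TE ε g1 g2) n - alst P N (fun s => B τ s n) n (TE ε g1 g2 n)‖ ^ 2 ≤ (2 * η1) ^ 2 :=
      pow_le_pow_left₀ (norm_nonneg _) hd2 2
    exact ⟨mul_le_mul hnuM h6 (sq_nonneg _) hM.le, mul_nonneg hnu0 (sq_nonneg _)⟩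
  have hI : ∫ n : S2, num P N (nsq (TE ε g1 g2 n)) *
      ‖alD (TE ε g1 g2) n - alst P N (fun s => B τ s n) n (TE ε g1 g2 n)‖ ^ 2 ∂sm ≤ ∫ _n : S2, M * (2 * η1) ^ 2 ∂sm := by
    refine integral_mono_of_nonneg (Eventually.of_forall fun n => (hpt n).2) (NullS.int_S2 continuous_const)
      (Eventually.of_forall fun n => (hpt n).1)
  refine hI.trans ?_
  rw [integral_const, NullS.sm_real]
  have h7 : (4 * Real.pi) • (M * (2 * η1) ^ 2) = 16 * Real.pi * M * η1 ^ 2 := by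
    rw [smul_eq_mul]
    ring
  rw [h7, hη1sq]
  have h8 : (16 * Real.pi * M) * (η / (16 * Real.pi * M)) = η := by
    field_simp
  exact h8.le

end H17S
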