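import Pool.Agent.Lib.H17S.X.W6
import Pool.Agent.Lib.H17S.K.K5
import Pool.Agent.Lib.H17S.K.K6
import Pool.Agent.Lib.H17S.K.K7

set_option autoImplicit false

/-!
Chunk XW7 (M). The weak maximum principle for the solutions of the regularised equation, from `wmp_core`.
Proof. `p2' = max p2 0`, `Cg` from `alt_unif`, `A = 6 (2 p2' + Cg + 1)`, `k0` from `wmp_core`, `k = k0`, `Gm` from `betam_X1_bd`, `H = 200 (2 p2' + |Gm| + Cg)`; for `θ` take `η` from `wmp_core` and `ε0` from `hnear k η`.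
For a solution put `V = TE ε g1 g2`, `Γ = - betam P N ((1 - k) Xc P N)`, `1 <= Γ <= Gm`. `TF V`: `TE_smooth`, `TE_tan` (order of the product: `mul_comm`). `dv V n = PE ε g1 n - av g1 = PE ε g1 n` (`TE_div`, by definition `cr y v = crs (fun i => y i) v`; `m1`), `cl V n = PE ε g2 n` (`TE_curl`, `m2`).
`(fun i => 1 * TE ε g1 g2 n i) = TE ε g1 g2 n` (`funext`, `one_mul`), so `g1 n = 2 Re alt(n, V n)`, `g2 n = 2 Im alt` and `hnear` gives the first hypothesis.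
`|alt| <= |betam P N (min ..)| + |N| + Cg <= (p2' + Γ) + p2' + Cg` (`alt_unif`; `- Γ <= betam (min ..) <= P <= p2'` by `betam_min`, `nsq >= 0`), so `g1² + g2² = 4 |alt|² <= M²`, `M = 2 (2 p2' + Γ + Cg)` (`Complex.sq_norm`, `Complex.normSq_apply`), and
`TE_bd`: `vnrm V <= 3 M <= A (1 + Γ)`, `TE_hold`: `100 M <= H`. (`P`, `N` in `Rec p1 p2`: `p1 <= P <= p2`, `- p2 <= N <= p2`.) If the rectangle is empty there is nothing to prove.
-/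

open MeasureTheory Filter Topology Set
open scoped ContDiff ComplexConjugate

namespace H17S

open NullPen (E3 S2 sm proj)
open NullU (rl crs dtB Tng vnrm)
open NullS (TE PE av)
open Sph

variable {B : ℝ → ℝ → S2 → Fin 3 → Fin 3 → ℝ} {C : ℝ}

theorem wmp_of (hB : Fam B C) {p1 p2 : ℝ} (h1 : 0 < p1)
    (hnear : ∀ k ∈ Ioo (0 : ℝ) 1, ∀ η : ℝ, 0 < η → ∃ ε0 ∈ Ioc (0 : ℝ) 1, ∀ ε ∈ Ioc (0 : ℝ) ε0, ∀ τ ∈ Icc (0 : ℝ) 1, ∀ P N : ℝ,
      (P, N) ∈ Rec p1 p2 → ∀ g1 g2 : S2 → ℝ, Sol B k ε τ 1 P N g1 g2 → ∀ n : S2, |PE ε g1 n - g1 n| ≤ η ∧ |PE ε g2 n - g2 n| ≤ η) :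
    ∃ k ∈ Ioo (0 : ℝ) (1 / 2), ∀ θ : ℝ, 0 < θ → ∃ ε0 ∈ Ioc (0 : ℝ) 1,
      ∀ ε ∈ Ioc (0 : ℝ) ε0, ∀ τ ∈ Icc (0 : ℝ) 1, ∀ P N : ℝ, (P, N) ∈ Rec p1 p2 → ∀ g1 g2 : S2 → ℝ, Sol B k ε τ 1 P N g1 g2 →
        ∀ n : S2, nsq (TE ε g1 g2 n) ≤ (1 - k) * Xc P N + θ := by
  obtain ⟨Cg, hCg0, hCg⟩ := alt_unif (p2 := p2) hB h1
  obtain ⟨q, hq⟩ : ∃ q, q = max p2 0 := ⟨_, rfl⟩
  have hq0 : 0 ≤ q := hq ▸ le_max_right _ _
  have hq2 : p2 ≤ q := hq ▸ le_max_left _ _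
  have hA0 : 0 ≤ 6 * (2 * q + Cg + 1) := by positivity
  obtain ⟨k, hk, hcore⟩ := wmp_core (p2 := p2) hB h1 hA0
  obtain ⟨hΓ1, hcore⟩ := hcore k ⟨hk.1, le_rfl⟩
  have hk1 : k ∈ Ioo (0 : ℝ) 1 := ⟨hk.1, by linarith [hk.2]⟩
  obtain ⟨Gm, hGm⟩ := betam_X1_bd (p2 := p2) hk1 h1
  refine ⟨k, hk, fun θ hθ => ?_⟩
  have hH0 : 0 ≤ 200 * (2 * q + |Gm| + Cg) := by positivity
  obtain ⟨η, hη, hcore⟩ := hcore (200 * (2 * q + |Gm| + Cg)) θ hH0 hθ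
  obtain ⟨ε0, hε0, hn⟩ := hnear k hk1 η hη
  refine ⟨ε0, hε0, fun ε hε τ hτ P N hPN g1 g2 hS n => ?_⟩
  have hnear' := hn ε hε τ hτ P N hPN g1 g2 hS
  have hP : 0 < P := lt_of_lt_of_le h1 hPN.1.1
  have hΓ := hΓ1 P N hPN
  have hΓ2 := hGm P N hPN
  have hε1 : ε ≤ 1 := hε.2.trans hε0.2
  have htf : TF (TE ε g1 g2) := by
    refine ⟨fun i => NullS.TE_smooth hε.1 hS.c1 hS.c2 i, fun n => ?_⟩
    rw [← NullS.TE_tan hε.1 hS.c1 hS.c2 n]
    exact Finset.sum_congr rfl fun i _ => mul_comm _ _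
  have hone : ∀ m : S2, (fun i => 1 * TE ε g1 g2 m i) = TE ε g1 g2 m := fun m => by
    funext i
    rw [one_mul]
  have he1 : ∀ m : S2, g1 m = 2 * (alt B k τ P N m (TE ε g1 g2 m)).re := fun m => by
    have := hS.e1 m
    rwa [hone m] at this
  have he2 : ∀ m : S2, g2 m = 2 * (alt B k τ P N m (TE ε g1 g2 m)).im := fun m => by
    have := hS.e2 m
    rwa [hone m] at this
  have hM : ∀ m : S2, g1 m ^ 2 + g2 m ^ 2 ≤ (2 * (2 * q + - betam P N ((1 - k) * Xc P N) + Cg)) ^ 2 := by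
    intro m
    have e := hCg k ⟨hk.1, hk.2.le⟩ τ hτ P N hPN m (TE ε g1 g2 m) (htf.tan m)
    have hb := betam_min (N := N) hk1 hP
      (X := nsq (TE ε g1 g2 m)) (Finset.sum_nonneg fun i _ => sq_nonneg _)
    rw [he1 m, he2 m]
    generalize betam P N (min (nsq (TE ε g1 g2 m)) ((1 - k) * Xc P N)) = bm at e hb
    generalize betam P N ((1 - k) * Xc P N) = b1 at hb hΓ hΓ2 ⊢
    generalize alt B k τ P N m (TE ε g1 g2 m) = z at e ⊢
    have hbm : ‖(bm : ℂ)‖ ≤ q + -b1 := by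
      rw [Complex.norm_real, Real.norm_eq_abs, abs_le]
      constructor
      · linarith [hb.1]
      · linarith [hb.2, hPN.1.2]
    have hN : ‖(N : ℂ) * Complex.I‖ ≤ q := by
      rw [norm_mul, Complex.norm_I, mul_one, Complex.norm_real, Real.norm_eq_abs, abs_le]
      exact ⟨by linarith [hPN.2.1], by linarith [hPN.2.2]⟩
    have hz : ‖z‖ ≤ 2 * q + -b1 + Cg := by
      have h2 : z = (z + (bm : ℂ) + (N : ℂ) * Complex.I) - (bm : ℂ) - (N : ℂ) * Complex.I := by ring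
      have h3 : ‖z‖ ≤ ‖z + (bm : ℂ) + (N : ℂ) * Complex.I‖ + ‖(bm : ℂ)‖ + ‖(N : ℂ) * Complex.I‖ := by
        conv_lhs => rw [h2]
        exact (norm_sub_le _ _).trans (add_le_add (norm_sub_le _ _) le_rfl)
      linarith
    have h4 : (2 * z.re) ^ 2 + (2 * z.im) ^ 2 = (2 * ‖z‖) ^ 2 := by
      rw [mul_pow 2 ‖z‖, Complex.sq_norm, Complex.normSq_apply]
      ring
    rw [h4]
    exact pow_le_pow_left₀ (by positivity) (mul_le_mul_of_nonneg_left hz two_pos.le) 2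
  have hM0 : 0 ≤ 2 * (2 * q + - betam P N ((1 - k) * Xc P N) + Cg) := by linarith
  refine hcore τ hτ P N hPN (TE ε g1 g2) htf (fun m => ?_) (fun m m' => ?_) (fun m => ?_) n
  · have hd : dv (TE ε g1 g2) m = PE ε g1 m := by
      have h2 := NullS.TE_div hε.1 hS.c1 hS.c2 m
      rw [hS.m1, sub_zero] at h2
      exact h2
    have hc : cl (TE ε g1 g2) m = PE ε g2 m := by
      have h2 := NullS.TE_curl hε.1 hS.c1 hS.c2 m
      rw [hS.m2, sub_zero] at h2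
      exact h2
    rw [hd, hc, ← he1 m, ← he2 m]
    exact hnear' m
  · refine (NullS.TE_hold hε.1 hε1 hS.c1 hS.c2 hM hM0 m m').trans ?_
    refine mul_le_mul_of_nonneg_right ?_ (Real.sqrt_nonneg _)
    have := le_abs_self Gm
    linarith
  · refine (NullS.TE_bd hε.1 hε1 hS.c1 hS.c2 hM hM0 m).trans ?_
    nlinarith [mul_nonneg hq0 (zero_le_one.trans hΓ), mul_nonneg hCg0 (zero_le_one.trans hΓ)]

end H17S
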