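import Pool.Agent.Lib.H17S.X.T4
import Pool.Agent.Lib.H17S.X.W7

set_option autoImplicit false

/-!
Output of the weak maximum principle used in the topological part of module X: `wmp_of` (W7) with `eqc` (T4).
-/

open MeasureTheory Filter Topology Set
open scoped ContDiff ComplexConjugate

namespace H17S

open NullPen (E3 S2 sm proj)
open NullS (TE PE av)

variable {B : ℝ → ℝ → S2 → Fin 3 → Fin 3 → ℝ} {C : ℝ}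

theorem wmp (hB : Fam B C) {p1 p2 : ℝ} (h1 : 0 < p1) : ∃ k ∈ Ioo (0 : ℝ) (1 / 2), ∀ θ : ℝ, 0 < θ → ∃ ε0 ∈ Ioc (0 : ℝ) 1,
    ∀ ε ∈ Ioc (0 : ℝ) ε0, ∀ τ ∈ Icc (0 : ℝ) 1, ∀ P N : ℝ, (P, N) ∈ Rec p1 p2 → ∀ g1 g2 : S2 → ℝ, Sol B k ε τ 1 P N g1 g2 →
      ∀ n : S2, nsq (TE ε g1 g2 n) ≤ (1 - k) * Xc P N + θ := by
  refine wmp_of hB h1 fun k hk η hη => ?_
  obtain ⟨ε0, h0, h⟩ := eqc (p2 := p2) hB hk h1 hη
  exact ⟨ε0, h0, fun ε hε τ hτ P N hPN g1 g2 hS n => h ε hε τ hτ 1 ⟨zero_le_one, le_rfl⟩ P N hPN g1 g2 hS n⟩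

end H17S
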