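import Pool.Agent.Lib.H17S.Homotopy
import Pool.Agent.Lib.H17S.X.T1
import Pool.Agent.Lib.H17S.X.T2
import Pool.Agent.Lib.H17S.X.T3
import Pool.Agent.Lib.H17S.X.T5
import Pool.Agent.Lib.H17S.X.T6
import Pool.Agent.Lib.H17S.X.XW

set_option autoImplicit false

/-!
Assembly of the existence theorem (module X). Not a chunk.
-/

open MeasureTheory Filter Topology Set
open scoped ContDiff ComplexConjugate

namespace H17S

open NullPen (E3 S2 sm proj)
open NullS (TE PE av)

theorem asm_av_lip {f g : S2 → ℝ} (hf : Continuous f) (hg : Continuous g) {d : ℝ} (h : ∀ n, |f n - g n| ≤ d) :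
    |av f - av g| ≤ d := by
  have hpi := Real.pi_pos
  unfold av
  rw [← sub_div, ← integral_sub (NullS.int_S2 hf) (NullS.int_S2 hg), abs_div, abs_of_pos (by positivity : (0 : ℝ) < 4 * Real.pi),
    div_le_iff₀ (by positivity)]
  have hfin : IsFiniteMeasure sm := by
    change IsFiniteMeasure ((volume : Measure E3).toSphere)
    infer_instance
  have h1 : ‖∫ n : S2, (f n - g n) ∂sm‖ ≤ d * sm.real univ :=
    norm_integral_le_of_norm_le_const (Eventually.of_forall fun n => by
      rw [Real.norm_eq_abs]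
      exact h n)
  rw [NullS.sm_real, Real.norm_eq_abs] at h1
  linarith

theorem asm_av_re : Continuous (fun g : C(S2, ℂ) => av (fun n => (g n).re)) := by
  refine Metric.continuous_iff.2 fun g e he => ⟨e / 2, by linarith, fun h hh => ?_⟩
  rw [Real.dist_eq]
  refine lt_of_le_of_lt (asm_av_lip (d := e / 2) ?_ ?_ fun n => ?_) (by linarith)
  · exact Complex.continuous_re.comp h.continuous
  · exact Complex.continuous_re.comp g.continuous
  · rw [← Complex.sub_re]
    refine (Complex.abs_re_le_norm _).trans ?_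
    have h1 := (ContinuousMap.dist_apply_le_dist (f := h) (g := g) n)
    rw [dist_eq_norm] at h1
    exact h1.trans hh.le

theorem asm_av_im : Continuous (fun g : C(S2, ℂ) => av (fun n => (g n).im)) := by
  refine Metric.continuous_iff.2 fun g e he => ⟨e / 2, by linarith, fun h hh => ?_⟩
  rw [Real.dist_eq]
  refine lt_of_le_of_lt (asm_av_lip (d := e / 2) ?_ ?_ fun n => ?_) (by linarith)
  · exact Complex.continuous_im.comp h.continuous
  · exact Complex.continuous_im.comp g.continuous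
  · rw [← Complex.sub_im]
    refine (Complex.abs_im_le_norm _).trans ?_
    have h1 := (ContinuousMap.dist_apply_le_dist (f := h) (g := g) n)
    rw [dist_eq_norm] at h1
    exact h1.trans hh.le

theorem asm_av_smul (c : ℝ) (f : S2 → ℝ) : av (fun n => c * f n) = c * av f := by
  unfold av
  rw [integral_const_mul]
  ring

/-- A priori bounds for the parameters from the global inequality. -/
theorem asm_bounds {cA D0 P N I : ℝ} (hcA : 0 < cA) (hD : 0 ≤ D0) (hP : 0 < P) (hI : I ≤ 1)
    (h : (cA + 4 * Real.pi * (P ^ 2 + N ^ 2)) / P - I ≤ D0) :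
    min (1 / 2) (cA / (D0 + 1)) / 2 < P ∧ P < max 2 ((D0 + 1) / (4 * Real.pi)) + 1 ∧
      -(max 2 ((D0 + 1) / (4 * Real.pi)) + 1) < N ∧ N < max 2 ((D0 + 1) / (4 * Real.pi)) + 1 := by
  have hpi := Real.pi_pos
  have h1 : cA + 4 * Real.pi * (P ^ 2 + N ^ 2) ≤ (D0 + 1) * P := by
    have h2 : (cA + 4 * Real.pi * (P ^ 2 + N ^ 2)) / P ≤ D0 + 1 := by linarith
    rwa [div_le_iff₀ hP] at h2
  have hD1 : 0 < D0 + 1 := by linarith
  have hc : 0 < cA / (D0 + 1) := by positivity
  have hcP : cA / (D0 + 1) ≤ P := by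
    rw [div_le_iff₀ hD1]
    have : 0 ≤ 4 * Real.pi * (P ^ 2 + N ^ 2) := by positivity
    nlinarith
  have h4 : 4 * Real.pi * P ≤ D0 + 1 := by
    have h5 : 4 * Real.pi * P * P ≤ (D0 + 1) * P := by
      have : 0 ≤ 4 * Real.pi * N ^ 2 := by positivity
      nlinarith
    exact le_of_mul_le_mul_right h5 hP
  have hq : (D0 + 1) / (4 * Real.pi) * (4 * Real.pi) = D0 + 1 := by field_simp
  have h6 : P ≤ (D0 + 1) / (4 * Real.pi) := by
    rw [le_div_iff₀ (by positivity)]
    linarith
  have h7 : N ^ 2 ≤ ((D0 + 1) / (4 * Real.pi)) ^ 2 := by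
    have h8 : 4 * Real.pi * N ^ 2 ≤ (D0 + 1) * P := by
      have : 0 ≤ 4 * Real.pi * P ^ 2 := by positivity
      nlinarith
    have h9 : N ^ 2 ≤ (D0 + 1) / (4 * Real.pi) * P := by
      rw [div_mul_eq_mul_div, le_div_iff₀ (by positivity)]
      linarith
    have h10 : (D0 + 1) / (4 * Real.pi) * P ≤ (D0 + 1) / (4 * Real.pi) * ((D0 + 1) / (4 * Real.pi)) :=
      mul_le_mul_of_nonneg_left h6 (by positivity)
    nlinarith
  have h11 := abs_le_of_sq_le_sq' h7 (by positivity)
  have h12 := le_max_right (2 : ℝ) ((D0 + 1) / (4 * Real.pi))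
  refine ⟨?_, by linarith, by linarith [h11.1], by linarith [h11.2]⟩
  have h13 := min_le_right (1 / 2 : ℝ) (cA / (D0 + 1))
  have h14 : 0 < min (1 / 2 : ℝ) (cA / (D0 + 1)) := lt_min (by norm_num) hc
  linarith

theorem asm_cut_zero {P N k : ℝ} (hP : 0 < P) (hk : k ∈ Ioo (0 : ℝ) 1) : min (nsq (fun _ => 0)) ((1 - k) * Xc P N) = 0 := by
  have h1 : nsq (fun _ => 0) = 0 := by simp [nsq]
  rw [h1]
  have h2 := Xc_pos N hP
  have h3 : 0 < 1 - k := by linarith [hk.2]
  exact min_eq_left (by positivity)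

end H17S
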