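import Pool.Agent.Lib.H17S.X.XA
import Pool.Agent.Lib.H17S.K.K3
import Pool.Agent.Lib.H17S.K.K6
import Pool.Agent.Lib.H17S.K.K7
import Pool.Agent.Lib.H17S.K.K9

set_option autoImplicit false

/-!
Chunk XT4 (M). For solutions, `PE ε g` is close to `g`, uniformly.
Proof. `alt_mod`: `alt` is uniformly continuous on the compact set `[0,1] × Rec × S2 × {|V i| <= L}` (`alt_cont`, `IsCompact.uniformContinuousOn_of_continuous`): for `η > 0` there is `δ > 0` such that `dist n n' < δ`, `|V i - V' i| < δ` implies `‖alt (n, V) - alt (n', V')‖ <= η`.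
`eqc`: let `M` be the bound `alt_bd`. For a solution `|g|² = g1² + g2² = 4 ‖alt‖² <= (2 M)²`, so `V = TE ε g1 g2` satisfies `|V i| <= 6 M` and `|V n i - V n' i| <= 200 M sqrt (dist n n')` (`TE_bd`, `TE_hold`, `|v i| <= vnrm v`), also for `c V`, `0 <= c <= 1`.
Take `δ` of `alt_mod` for `η/4`, `L = 6 M`, and `δ' > 0` with `δ' <= δ` and `200 M sqrt δ' < δ`. For `dist m n < δ'`: `|g1 m - g1 n| <= 2 ‖alt - alt‖ <= η/2`; for `dist m n >= δ'`: `|g1 m - g1 n| <= 4 M <= (4 M/δ') dist m n`.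
So `|g1 m - g1 n| <= η/2 + A dist m n` with `A = 4 M/δ'`, and `PE_near`: `|PE g1 n - g1 n| <= η/2 + 5 A sqrt ε <= η` for `ε <= ε0` (`ε0 = min 1 (η/(10 A + 1))²`, say). Same for `g2`. (On the sphere the metric of the subtype `S2` is the distance in `E3`.)
-/

open MeasureTheory Filter Topology Set
open scoped ContDiff ComplexConjugate

namespace H17S

open NullPen (E3 S2 sm proj)
open NullS (TE PE av)

variable {B : ℝ → ℝ → S2 → Fin 3 → Fin 3 → ℝ} {C : ℝ}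

theorem xt4_bd {B : ℝ → ℝ → S2 → Fin 3 → Fin 3 → ℝ} {C : ℝ} (hB : Fam B C) {k : ℝ} (hk : k ∈ Ioo (0 : ℝ) 1) {p1 p2 : ℝ}
    (h1 : 0 < p1) : ∃ M, 0 < M ∧ ∀ τ ∈ Icc (0 : ℝ) 1, ∀ P N : ℝ, (P, N) ∈ Rec p1 p2 → ∀ (n : S2) (V : Fin 3 → ℝ),
      ‖alt B k τ P N n V‖ ≤ M := alt_bd hB hk h1

theorem alt_mod (hB : Fam B C) {k : ℝ} (hk : k ∈ Ioo (0 : ℝ) 1) {p1 p2 : ℝ} (h1 : 0 < p1) (L : ℝ) {η : ℝ} (hη : 0 < η) :
    ∃ δ, 0 < δ ∧ ∀ τ ∈ Icc (0 : ℝ) 1, ∀ P N : ℝ, (P, N) ∈ Rec p1 p2 → ∀ (n n' : S2) (V V' : Fin 3 → ℝ), (∀ i, |V i| ≤ L) → (∀ i, |V' i| ≤ L) →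
      dist n n' < δ → (∀ i, |V i - V' i| < δ) → ‖alt B k τ P N n V - alt B k τ P N n' V'‖ ≤ η := by
  have hK : IsCompact ((Icc (0 : ℝ) 1 ×ˢ Rec p1 p2) ×ˢ
      ((univ : Set S2) ×ˢ (Set.pi univ fun _ : Fin 3 => Icc (-L) L))) :=
    (isCompact_Icc.prod (isCompact_Icc.prod isCompact_Icc)).prod
      (isCompact_univ.prod (isCompact_univ_pi fun _ => isCompact_Icc))
  have hsub : (Icc (0 : ℝ) 1 ×ˢ Rec p1 p2) ×ˢ ((univ : Set S2) ×ˢ (Set.pi univ fun _ : Fin 3 => Icc (-L) L)) ⊆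
      (Icc (0 : ℝ) 1 ×ˢ (Ioi (0 : ℝ) ×ˢ (univ : Set ℝ))) ×ˢ (univ : Set (S2 × (Fin 3 → ℝ))) := by
    rintro ⟨⟨τ, P, N⟩, n, V⟩ ⟨⟨hτ, hP, -⟩, -⟩
    exact ⟨⟨hτ, lt_of_lt_of_le h1 hP.1, mem_univ _⟩, mem_univ _⟩
  have hc := (alt_cont hB hk).mono hsub
  have hu := hK.uniformContinuousOn_of_continuous hc
  rw [Metric.uniformContinuousOn_iff] at hu
  obtain ⟨δ, hδ, h⟩ := hu η hη
  refine ⟨δ, hδ, fun τ hτ P N hPN n n' V V' hV hV' hd hVd => ?_⟩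
  have h2 := h ((τ, P, N), (n, V)) ⟨⟨hτ, hPN⟩, mem_univ _, fun i _ => abs_le.1 (hV i)⟩
    ((τ, P, N), (n', V')) ⟨⟨hτ, hPN⟩, mem_univ _, fun i _ => abs_le.1 (hV' i)⟩ (by
      have e1 : dist ((τ, P, N) : ℝ × ℝ × ℝ) (τ, P, N) < δ := by
        rw [dist_self]
        exact hδ
      refine max_lt e1 (max_lt hd ?_)
      show dist V V' < δ
      rw [dist_pi_lt_iff hδ]
      intro i
      rw [Real.dist_eq]
      exact hVd i)
  rw [dist_eq_norm] at h2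
  exact h2.le

theorem xt4_comp (v : Fin 3 → ℝ) (i : Fin 3) : |v i| ≤ NullU.vnrm v := by
  have h1 := NullS.vnrm_sq v
  have h2 : v i ^ 2 ≤ NullU.vnrm v ^ 2 := by
    rw [h1]
    exact Finset.single_le_sum (f := fun j => v j ^ 2) (fun j _ => sq_nonneg _) (Finset.mem_univ i)
  exact abs_le_of_sq_le_sq h2 (NullS.vnrm_nonneg v)

theorem xt4_near {ε η M δ : ℝ} (hε : 0 < ε) (hε1 : ε ≤ 1) (hη : 0 < η) (hM : 0 < M) (hδ : 0 < δ)
    (hεs : Real.sqrt ε ≤ η / (10 * (4 * M / δ) + 1)) {g : S2 → ℝ} (cg : Continuous g)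
    (hbd : ∀ m, |g m| ≤ 2 * M) (hnear : ∀ m n : S2, dist m n < δ → |g m - g n| ≤ η / 2) (n : S2) :
    |PE ε g n - g n| ≤ η := by
  have hA : 0 < 4 * M / δ := by positivity
  have h : ∀ m : S2, |g m - g n| ≤ η / 2 + 4 * M / δ * dist m n := by
    intro m
    have hdist : 0 ≤ dist m n := dist_nonneg
    by_cases hd : dist m n < δ
    · have h1 := hnear m n hd
      have h2 : 0 ≤ 4 * M / δ * dist m n := by positivity
      linarith
    · push Not at hd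
      have h1 : |g m - g n| ≤ 4 * M := by
        have h2 := abs_sub (g m) (g n)
        have h3 := hbd m
        have h4 := hbd n
        linarith
      have h5 : 4 * M ≤ 4 * M / δ * dist m n := by
        rw [div_mul_eq_mul_div, le_div_iff₀ hδ]
        exact mul_le_mul_of_nonneg_left hd (by positivity)
      linarith
  have h1 := NullS.PE_near hε hε1 cg (C := 4 * M / δ) hA.le n h
  have h2 : 4 * M / δ * (5 * Real.sqrt ε) ≤ η / 2 := by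
    have h3 : Real.sqrt ε * (10 * (4 * M / δ) + 1) ≤ η := (le_div_iff₀ (by positivity)).1 hεs
    have h4 : 0 ≤ Real.sqrt ε := Real.sqrt_nonneg ε
    nlinarith
  linarith

theorem eqc (hB : Fam B C) {k : ℝ} (hk : k ∈ Ioo (0 : ℝ) 1) {p1 p2 : ℝ} (h1 : 0 < p1) {η : ℝ} (hη : 0 < η) :
    ∃ ε0 ∈ Ioc (0 : ℝ) 1, ∀ ε ∈ Ioc (0 : ℝ) ε0, ∀ τ ∈ Icc (0 : ℝ) 1, ∀ c ∈ Icc (0 : ℝ) 1, ∀ P N : ℝ, (P, N) ∈ Rec p1 p2 →
      ∀ g1 g2 : S2 → ℝ, Sol B k ε τ c P N g1 g2 → ∀ n : S2, |PE ε g1 n - g1 n| ≤ η ∧ |PE ε g2 n - g2 n| ≤ η := by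
  obtain ⟨M, hM, hMb⟩ := xt4_bd hB hk (p2 := p2) h1
  obtain ⟨δ, hδ, hmod⟩ := alt_mod hB hk (p2 := p2) h1 (6 * M) (η := η / 4) (by linarith)
  obtain ⟨δ', hδ'0, hδ'1, hδ'2⟩ : ∃ δ', 0 < δ' ∧ δ' ≤ δ ∧ 200 * M * Real.sqrt δ' < δ := by
    refine ⟨min δ ((δ / (400 * M)) ^ 2), lt_min hδ (by positivity), min_le_left _ _, ?_⟩
    have h2 : Real.sqrt (min δ ((δ / (400 * M)) ^ 2)) ≤ δ / (400 * M) :=
      (Real.sqrt_le_sqrt (min_le_right _ _)).trans (le_of_eq (Real.sqrt_sq (by positivity)))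
    have h3 : 200 * M * Real.sqrt (min δ ((δ / (400 * M)) ^ 2)) ≤ 200 * M * (δ / (400 * M)) :=
      mul_le_mul_of_nonneg_left h2 (by positivity)
    have h4 : 200 * M * (δ / (400 * M)) = δ / 2 := by
      field_simp
      norm_num
    linarith
  have hA : 0 < 4 * M / δ' := by positivity
  refine ⟨min 1 ((η / (10 * (4 * M / δ') + 1)) ^ 2), ⟨lt_min one_pos (by positivity), min_le_left _ _⟩, ?_⟩
  intro ε hε τ hτ c hc P N hPN g1 g2 hS n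
  have hε0 : 0 < ε := hε.1
  have hε1 : ε ≤ 1 := hε.2.trans (min_le_left _ _)
  have hεs : Real.sqrt ε ≤ η / (10 * (4 * M / δ') + 1) :=
    (Real.sqrt_le_sqrt (hε.2.trans (min_le_right _ _))).trans (le_of_eq (Real.sqrt_sq (by positivity)))
  have hre : ∀ m : S2, ‖alt B k τ P N m (fun i => c * TE ε g1 g2 m i)‖ ≤ M := fun m => hMb τ hτ P N hPN m _
  have hgM : ∀ m : S2, g1 m ^ 2 + g2 m ^ 2 ≤ (2 * M) ^ 2 := by
    intro m
    rw [hS.e1 m, hS.e2 m]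
    have h2 := hre m
    have h3 := Complex.sq_norm (alt B k τ P N m (fun i => c * TE ε g1 g2 m i))
    rw [Complex.normSq_apply] at h3
    have h4 : ‖alt B k τ P N m (fun i => c * TE ε g1 g2 m i)‖ ^ 2 ≤ M ^ 2 := pow_le_pow_left₀ (norm_nonneg _) h2 2
    nlinarith
  have hM0 : 0 ≤ 2 * M := by positivity
  have hVb : ∀ (m : S2) (i : Fin 3), |c * TE ε g1 g2 m i| ≤ 6 * M := by
    intro m i
    have h2 := NullS.TE_bd hε0 hε1 hS.c1 hS.c2 hgM hM0 m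
    have h3 := xt4_comp (TE ε g1 g2 m) i
    rw [abs_mul, abs_of_nonneg hc.1]
    have h4 : c * |TE ε g1 g2 m i| ≤ 1 * |TE ε g1 g2 m i| := mul_le_mul_of_nonneg_right hc.2 (abs_nonneg _)
    linarith
  have hVh : ∀ (m m' : S2) (i : Fin 3), dist m m' < δ' → |c * TE ε g1 g2 m i - c * TE ε g1 g2 m' i| < δ := by
    intro m m' i hd
    have h2 := NullS.TE_hold hε0 hε1 hS.c1 hS.c2 hgM hM0 m m'
    have h3 := xt4_comp (fun k => TE ε g1 g2 m k - TE ε g1 g2 m' k) i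
    have h5 : Real.sqrt (dist m m') ≤ Real.sqrt δ' := Real.sqrt_le_sqrt hd.le
    have h6 : 100 * (2 * M) * Real.sqrt (dist m m') ≤ 200 * M * Real.sqrt δ' := by
      have h7 := mul_le_mul_of_nonneg_left h5 (by positivity : 0 ≤ 200 * M)
      linarith
    rw [← mul_sub, abs_mul, abs_of_nonneg hc.1]
    have h4 : c * |TE ε g1 g2 m i - TE ε g1 g2 m' i| ≤ 1 * |TE ε g1 g2 m i - TE ε g1 g2 m' i| :=
      mul_le_mul_of_nonneg_right hc.2 (abs_nonneg _)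
    have h8 : |TE ε g1 g2 m i - TE ε g1 g2 m' i| ≤ 100 * (2 * M) * Real.sqrt (dist m m') := h3.trans h2
    linarith
  have hd : ∀ m m' : S2, dist m m' < δ' →
      ‖alt B k τ P N m (fun i => c * TE ε g1 g2 m i) - alt B k τ P N m' (fun i => c * TE ε g1 g2 m' i)‖ ≤ η / 4 :=
    fun m m' hd => hmod τ hτ P N hPN m m' _ _ (hVb m) (hVb m') (lt_of_lt_of_le hd hδ'1) (fun i => hVh m m' i hd)
  refine ⟨xt4_near hε0 hε1 hη hM hδ'0 hεs hS.c1 (fun m => ?_) (fun m m' hmm => ?_) n,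
    xt4_near hε0 hε1 hη hM hδ'0 hεs hS.c2 (fun m => ?_) (fun m m' hmm => ?_) n⟩
  · rw [hS.e1 m, abs_mul, abs_two]
    exact mul_le_mul_of_nonneg_left ((Complex.abs_re_le_norm _).trans (hre m)) (by norm_num)
  · rw [hS.e1 m, hS.e1 m', ← mul_sub, ← Complex.sub_re, abs_mul, abs_two]
    have h2 := (Complex.abs_re_le_norm _).trans (hd m m' hmm)
    linarith
  · rw [hS.e2 m, abs_mul, abs_two]
    exact mul_le_mul_of_nonneg_left ((Complex.abs_im_le_norm _).trans (hre m)) (by norm_num)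
  · rw [hS.e2 m, hS.e2 m', ← mul_sub, ← Complex.sub_im, abs_mul, abs_two]
    have h2 := (Complex.abs_im_le_norm _).trans (hd m m' hmm)
    linarith

end H17S
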