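import Pool.Agent.Lib.H17S.K.K7

set_option autoImplicit false

/-!
Chunk XW1 (S/M). Smoothing of Lipschitz functions on the sphere.
Proof. `G = PE ε g`, `ε = min 1 ((δ / (5 Λ + 1)) ^ 2)` (so `5 Λ √ε <= δ`). `g` is continuous (`LipschitzWith`, or `Metric.continuous_iff`); `dist m m' = ‖(m : E3) - m'‖` (`Subtype.dist_eq`, `dist_eq_norm`). `PE_smooth`, `PE_near` with `η = 0`, `C = Λ`, `PE_lip`.
-/

open MeasureTheory Filter Topology Set
open scoped ContDiff ComplexConjugate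

namespace H17S

open NullPen (E3 S2 sm proj)
open NullU (rl crs dtB Tng vnrm)
open NullS (TE PE av)

theorem lip_smooth {g : S2 → ℝ} {Λ : ℝ} (hΛ : 0 ≤ Λ) (hg : ∀ m m' : S2, |g m - g m'| ≤ Λ * ‖(m : E3) - m'‖) {δ : ℝ} (hδ : 0 < δ) :
    ∃ G : E3 → ℝ, ContDiff ℝ ∞ G ∧ (∀ n : S2, |G n - g n| ≤ δ) ∧ ∀ (n : S2) (j : Fin 3), |rl j G n| ≤ Λ := by
  have hd : ∀ m m' : S2, dist m m' = ‖(m : E3) - m'‖ := fun m m' => by
    rw [Subtype.dist_eq, dist_eq_norm]
  have hg' : ∀ m m' : S2, |g m - g m'| ≤ Λ * dist m m' := fun m m' => by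
    rw [hd]
    exact hg m m'
  have cg : Continuous g := by
    have h1 : LipschitzWith Λ.toNNReal g := by
      refine LipschitzWith.of_dist_le_mul fun x y => ?_
      rw [Real.dist_eq, Real.coe_toNNReal _ hΛ]
      exact hg' x y
    exact h1.continuous
  set q : ℝ := δ / (5 * Λ + 1) with hq
  have hq0 : 0 < q := by positivity
  set ε : ℝ := min 1 (q ^ 2) with hε
  have hε0 : 0 < ε := lt_min one_pos (by positivity)
  have hε1 : ε ≤ 1 := min_le_left _ _
  have hs : Real.sqrt ε ≤ q := by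
    rw [Real.sqrt_le_left hq0.le]
    exact min_le_right _ _
  have hb : 5 * Λ * Real.sqrt ε ≤ δ := by
    have h1 : q * (5 * Λ + 1) = δ := by
      rw [hq]
      field_simp
    have h2 : 5 * Λ * Real.sqrt ε ≤ 5 * Λ * q := mul_le_mul_of_nonneg_left hs (by positivity)
    nlinarith
  refine ⟨PE ε g, NullS.PE_smooth hε0 cg, fun n => ?_, fun n j => ?_⟩
  · have h1 := NullS.PE_near (η := 0) (C := Λ) hε0 hε1 cg hΛ n (fun m => by
      rw [zero_add]
      exact hg' m n)
    rw [zero_add] at h1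
    linarith
  · exact NullS.PE_lip hε0 cg hg' j n

end H17S
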