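import Pool.Agent.Lib.H17S.N3
import Pool.Agent.Lib.H17S.N4

set_option autoImplicit false

/-!
Chunk XW2 (M). Derivatives of `ffun G H V y = G y + ∑_ab H_ab(y) V_a V_b / |V|²` in the directions `V` and `J V`. At a point `n` of the sphere with `X = nsq (V n) > 0`, `v = vnrm (V n) = √X`, `w = vnrm (wv V n)`.
`ffun_cd`: quotients and products of smooth functions, `nsq (V y) ≠ 0` near `n`. Notation: `D_t f = ∑_j cr n t j * rl j f n = ∑_i t_i gd f n i` (`gd_dot`).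
`ff_dir`: `D_t F = D_t G + ∑_ab [D_t H_ab V_a V_b/X + H_ab (D_t V_a V_b + V_a D_t V_b)/X - H_ab V_a V_b D_t X/X²]` (rules for `rl`: `rl_add`, `rl_mul`, `rl_sum`, and for the quotient write `V_a V_b / X = V_a V_b * X⁻¹`, `rl_comp` with `x ↦ x⁻¹`, derivative `- 1/x²`).
`|D_t G| <= Λ ∑_j |cr n t j| <= 2 Λ |t|` (`nsq_cr`, Cauchy-Schwarz with `√3 <= 2`), the same for `H_ab`; `|V_a V_b| <= X`, `|V_a| <= v`; `D_t X = 2 ∑ t_i wv_i` (`gd_dot` and the definition of `wv`), `|D_t X| <= 2 |t| w`. Sum over 9 pairs `(a, b)`: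
`<= 2 Λ |t| + 18 Λ |t| + 18 Λ d / v + 18 Λ |t| w / X`.
`dir_bd1`: `D_V V_k = wv k + q cr n V k - X n_k` (`dir_V`, `DV_V`), each component is bounded by the norm (`nsq_cr`, `|n_k| <= 1`). `dir_bd2`: `t = cr n V`: `D_t V_k = cr n (p V - w) k - 0` (`dir_V`, `DV_JV`, `cr_dot_self`), norm of `cr n` of a tangent vector: `nsq_cr`, `wv_tan`; triangle inequality.
`ff_V`, `ff_JV`: `ff_dir` with `t = V`, `d = w + |q| v + v²`, resp. `t = cr n V`, `|t| = v`, `d = |p| v + w`: `20 Λ v + 18 Λ (w/v + |q| + v) + 18 Λ w/v <= 40 Λ (v + w/v + |q|)`, the same with `|p|`.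
-/

open MeasureTheory Filter Topology Set
open scoped ContDiff ComplexConjugate

namespace H17S

open NullPen (E3 S2 sm proj)
open NullU (rl crs dtB Tng vnrm)
open Sph

/-- `G + ∑ H_ab V_a V_b / |V|²`. -/
noncomputable def ffun (G : E3 → ℝ) (H : Fin 3 → Fin 3 → E3 → ℝ) (V : E3 → Fin 3 → ℝ) (y : E3) : ℝ :=
  G y + ∑ a, ∑ b, H a b y * (V y a * V y b / nsq (V y))

variable {V : E3 → Fin 3 → ℝ} {G : E3 → ℝ} {H : Fin 3 → Fin 3 → E3 → ℝ}

private theorem xw2_sq (v : Fin 3 → ℝ) (a : Fin 3) : v a ^ 2 ≤ nsq v := by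
  unfold nsq
  exact Finset.single_le_sum (f := fun i => v i ^ 2) (fun i _ => sq_nonneg _) (Finset.mem_univ a)

private theorem xw2_nn (v : Fin 3 → ℝ) : 0 ≤ nsq v := (sq_nonneg _).trans (xw2_sq v 0)

private theorem xw2_ab (v : Fin 3 → ℝ) (a b : Fin 3) : |v a * v b| ≤ nsq v := by
  have h1 := xw2_sq v a
  have h2 := xw2_sq v b
  rw [abs_le]
  constructor <;> nlinarith [sq_nonneg (v a + v b), sq_nonneg (v a - v b)]

private theorem xw2_q (v : Fin 3 → ℝ) (a b : Fin 3) : |v a * v b / nsq v| ≤ 1 := by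
  rw [abs_div, abs_of_nonneg (xw2_nn v)]
  exact div_le_one_of_le₀ (xw2_ab v a b) (xw2_nn v)

private theorem xw2_vn (v : Fin 3 → ℝ) : vnrm v ^ 2 = nsq v := by
  unfold vnrm
  exact Real.sq_sqrt (xw2_nn v)

private theorem xw2_v0 (v : Fin 3 → ℝ) : 0 ≤ vnrm v := Real.sqrt_nonneg _

private theorem xw2_comp (v : Fin 3 → ℝ) (a : Fin 3) : |v a| ≤ vnrm v := by
  unfold vnrm
  exact Real.abs_le_sqrt (xw2_sq v a)

private theorem xw2_cs (v w : Fin 3 → ℝ) : |∑ i, v i * w i| ≤ vnrm v * vnrm w := by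
  unfold vnrm
  have h0 : 0 ≤ ∑ i, v i ^ 2 := xw2_nn v
  rw [← Real.sqrt_mul h0]
  exact Real.abs_le_sqrt (Finset.sum_mul_sq_le_sq_mul_sq _ _ _)

private theorem xw2_one (c : Fin 3 → ℝ) : ∑ j, |c j| ≤ 2 * vnrm c := by
  have h1 := Finset.sum_mul_sq_le_sq_mul_sq Finset.univ (fun j => |c j|) (fun _ : Fin 3 => (1 : ℝ))
  simp only [mul_one, sq_abs, one_pow, Finset.sum_const, Finset.card_univ, Fintype.card_fin, nsmul_eq_mul,
    Nat.cast_ofNat] at h1
  have h2 := xw2_vn c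
  unfold nsq at h2
  rw [← h2] at h1
  have h3 : 0 ≤ ∑ j, |c j| := Finset.sum_nonneg fun j _ => abs_nonneg _
  have h4 := xw2_v0 c
  nlinarith

private theorem xw2_D (c r : Fin 3 → ℝ) {Λ : ℝ} (hΛ : 0 ≤ Λ) (h : ∀ j, |r j| ≤ Λ) :
    |∑ j, c j * r j| ≤ 2 * Λ * vnrm c := by
  calc |∑ j, c j * r j| ≤ ∑ j, |c j * r j| := Finset.abs_sum_le_sum_abs _ _
    _ ≤ ∑ j, |c j| * Λ := Finset.sum_le_sum fun j _ => by
        rw [abs_mul]
        exact mul_le_mul_of_nonneg_left (h j) (abs_nonneg _)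
    _ = (∑ j, |c j|) * Λ := (Finset.sum_mul _ _ _).symm
    _ ≤ 2 * vnrm c * Λ := mul_le_mul_of_nonneg_right (xw2_one c) hΛ
    _ = 2 * Λ * vnrm c := by ring

private theorem xw2_tri (a b : Fin 3 → ℝ) : vnrm (fun k => a k - b k) ≤ vnrm a + vnrm b := by
  have e : ∀ v : Fin 3 → ℝ, vnrm v = ‖(WithLp.toLp 2 v : E3)‖ := by
    intro v
    rw [EuclideanSpace.norm_eq]
    unfold vnrm
    congr 1
    exact Finset.sum_congr rfl fun i _ => by rw [Real.norm_eq_abs, sq_abs]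
  rw [e, e, e]
  exact norm_sub_le (WithLp.toLp 2 a : E3) (WithLp.toLp 2 b)

private theorem xw2_smul (c : ℝ) (v : Fin 3 → ℝ) : vnrm (fun k => c * v k) = |c| * vnrm v := by
  unfold vnrm
  have : ∑ i, (c * v i) ^ 2 = c ^ 2 * ∑ i, v i ^ 2 := by
    rw [Finset.mul_sum]
    exact Finset.sum_congr rfl fun i _ => by ring
  rw [this, Real.sqrt_mul (sq_nonneg c), Real.sqrt_sq_eq_abs]

private theorem xw2_cr (n : S2) {v : Fin 3 → ℝ} (hv : ∑ i, (n : E3) i * v i = 0) : vnrm (cr n v) = vnrm v := by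
  have h := nsq_cr n hv
  unfold nsq at h
  unfold vnrm
  rw [h]

theorem ffun_cd (hV : TF V) (hG : ContDiff ℝ ∞ G) (hH : ∀ a b, ContDiff ℝ ∞ (H a b)) (n : S2) (hX : 0 < nsq (V n)) :
    ContDiffAt ℝ 1 (ffun G H V) n := by
  have h1 : ContDiffAt ℝ ∞ (ffun G H V) n := by
    unfold ffun
    refine hG.contDiffAt.add (ContDiffAt.sum fun a _ => ContDiffAt.sum fun b _ => ?_)
    exact (hH a b).contDiffAt.mul (((hV.sm a).contDiffAt.mul (hV.sm b).contDiffAt).div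
      (nsq_smooth hV).contDiffAt hX.ne')
  exact h1.of_le (by exact_mod_cast le_top)

/-- `|V_a V_b / |V|²| <= 1`, so `|F - G| <= 9 Λ`. -/
theorem ffun_bd {n : S2} {Λ : ℝ} (hH : ∀ a b, |H a b n| ≤ Λ) : |ffun G H V n - G n| ≤ 9 * Λ := by
  unfold ffun
  rw [add_sub_cancel_left]
  have h1 : ∀ a b, |H a b n * (V n a * V n b / nsq (V n))| ≤ Λ := by
    intro a b
    rw [abs_mul]
    calc |H a b n| * |V n a * V n b / nsq (V n)| ≤ |H a b n| * 1 :=
          mul_le_mul_of_nonneg_left (xw2_q _ a b) (abs_nonneg _)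
      _ ≤ Λ := by rw [mul_one]; exact hH a b
  calc |∑ a, ∑ b, H a b n * (V n a * V n b / nsq (V n))|
      ≤ ∑ a, |∑ b, H a b n * (V n a * V n b / nsq (V n))| := Finset.abs_sum_le_sum_abs _ _
    _ ≤ ∑ a : Fin 3, ∑ b : Fin 3, |H a b n * (V n a * V n b / nsq (V n))| :=
        Finset.sum_le_sum fun a _ => Finset.abs_sum_le_sum_abs _ _
    _ ≤ ∑ a : Fin 3, ∑ b : Fin 3, Λ := Finset.sum_le_sum fun a _ => Finset.sum_le_sum fun b _ => h1 a b
    _ = 9 * Λ := by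
        simp
        ring

private theorem xw2_rl (hV : TF V) (hG : ContDiff ℝ ∞ G) (hH : ∀ a b, ContDiff ℝ ∞ (H a b)) (n : S2)
    (hX : 0 < nsq (V n)) (j : Fin 3) :
    rl j (ffun G H V) n = rl j G n + ∑ a, ∑ b, (rl j (H a b) n * (V n a * V n b * (nsq (V n))⁻¹) +
      H a b n * ((rl j (fun y => V y a) n * V n b + V n a * rl j (fun y => V y b) n) * (nsq (V n))⁻¹ +
        V n a * V n b * (-(nsq (V n) ^ 2)⁻¹ * rl j (fun y => nsq (V y)) n))) := by
  have dG : DifferentiableAt ℝ G n := hG.differentiable (by simp) _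
  have dH : ∀ a b, DifferentiableAt ℝ (H a b) n := fun a b => (hH a b).differentiable (by simp) _
  have dV : ∀ a, DifferentiableAt ℝ (fun y => V y a) n := fun a => (hV.sm a).differentiable (by simp) _
  have dN : DifferentiableAt ℝ (fun y => nsq (V y)) n := (nsq_smooth hV).differentiable (by simp) _
  have dI : DifferentiableAt ℝ (fun y => (nsq (V y))⁻¹) n := dN.inv hX.ne'
  have dVV : ∀ a b, DifferentiableAt ℝ (fun y => V y a * V y b) n := fun a b => (dV a).mul (dV b)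
  have dQ : ∀ a b, DifferentiableAt ℝ (fun y => V y a * V y b * (nsq (V y))⁻¹) n := fun a b => (dVV a b).mul dI
  have dT : ∀ a b, DifferentiableAt ℝ (fun y => H a b y * (V y a * V y b * (nsq (V y))⁻¹)) n :=
    fun a b => (dH a b).mul (dQ a b)
  have dS : ∀ a, DifferentiableAt ℝ (fun y => ∑ b, H a b y * (V y a * V y b * (nsq (V y))⁻¹)) n :=
    fun a => DifferentiableAt.fun_sum fun b _ => dT a b
  have dSS : DifferentiableAt ℝ (fun y => ∑ a, ∑ b, H a b y * (V y a * V y b * (nsq (V y))⁻¹)) n :=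
    DifferentiableAt.fun_sum fun a _ => dS a
  have e0 : ffun G H V = fun y => G y + ∑ a, ∑ b, H a b y * (V y a * V y b * (nsq (V y))⁻¹) := by
    funext y
    unfold ffun
    simp only [div_eq_mul_inv]
  rw [e0, rl_add dG dSS, rl_sum dS]
  congr 1
  refine Finset.sum_congr rfl fun a _ => ?_
  rw [rl_sum (dT a)]
  refine Finset.sum_congr rfl fun b _ => ?_
  rw [rl_mul (dH a b) (dQ a b), rl_mul (dVV a b) dI, rl_mul (dV a) (dV b),
    rl_comp dN (hasDerivAt_inv hX.ne')]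

theorem ff_dir (hV : TF V) (hG : ContDiff ℝ ∞ G) (hH : ∀ a b, ContDiff ℝ ∞ (H a b)) (n : S2) (hX : 0 < nsq (V n)) {Λ : ℝ}
    (hΛ : 0 ≤ Λ) (bG : ∀ j, |rl j G n| ≤ Λ) (bH : ∀ a b j, |rl j (H a b) n| ≤ Λ) (bH0 : ∀ a b, |H a b n| ≤ Λ)
    {t : Fin 3 → ℝ} (ht : ∑ i, (n : E3) i * t i = 0) {d : ℝ}
    (hd : ∀ k, |∑ j, cr n t j * rl j (fun y => V y k) n| ≤ d) :
    |∑ i, t i * gd (ffun G H V) n i| ≤ Λ * (20 * vnrm t + 18 * d / vnrm (V n) + 18 * vnrm t * vnrm (wv V n) / nsq (V n)) := by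
  rw [gd_dot]
  obtain ⟨c, hc⟩ : ∃ c : Fin 3 → ℝ, c = cr n t := ⟨_, rfl⟩
  have hct : vnrm c = vnrm t := by rw [hc]; exact xw2_cr n ht
  rw [← hc]
  rw [← hc] at hd
  have hN : ∑ j, c j * rl j (fun y => nsq (V y)) n = 2 * ∑ i, t i * wv V n i := by
    rw [hc, ← gd_dot, Finset.mul_sum]
    refine Finset.sum_congr rfl fun i _ => ?_
    unfold wv
    ring
  obtain ⟨X, hXd⟩ : ∃ X : ℝ, X = nsq (V n) := ⟨_, rfl⟩
  obtain ⟨v, hvd⟩ : ∃ v : ℝ, v = vnrm (V n) := ⟨_, rfl⟩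
  obtain ⟨w, hwd⟩ : ∃ w : ℝ, w = vnrm (wv V n) := ⟨_, rfl⟩
  have hv2 : v ^ 2 = X := by rw [hvd, hXd]; exact xw2_vn _
  have hX0 : 0 < X := by rw [hXd]; exact hX
  have hv0 : 0 ≤ v := by rw [hvd]; exact xw2_v0 _
  have hv1 : 0 < v := by
    rcases hv0.lt_or_eq with h | h
    · exact h
    · rw [← h] at hv2
      norm_num at hv2
      linarith
  have hw0 : 0 ≤ w := by rw [hwd]; exact xw2_v0 _
  have hd0 : 0 ≤ d := (abs_nonneg _).trans (hd 0)
  have e1 : ∑ j, c j * rl j (ffun G H V) n = (∑ j, c j * rl j G n) + ∑ a, ∑ b,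
      ((∑ j, c j * rl j (H a b) n) * (V n a * V n b * X⁻¹) +
      H a b n * (((∑ j, c j * rl j (fun y => V y a) n) * V n b + V n a * (∑ j, c j * rl j (fun y => V y b) n)) * X⁻¹ +
        V n a * V n b * (-(X ^ 2)⁻¹ * (∑ j, c j * rl j (fun y => nsq (V y)) n)))) := by
    have e2 : ∀ j, c j * rl j (ffun G H V) n = c j * rl j G n + ∑ a, ∑ b, c j * (rl j (H a b) n * (V n a * V n b * X⁻¹) +
      H a b n * ((rl j (fun y => V y a) n * V n b + V n a * rl j (fun y => V y b) n) * X⁻¹ +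
        V n a * V n b * (-(X ^ 2)⁻¹ * rl j (fun y => nsq (V y)) n))) := by
      intro j
      rw [xw2_rl hV hG hH n hX j, mul_add, Finset.mul_sum, hXd]
      congr 1
      refine Finset.sum_congr rfl fun a _ => ?_
      rw [Finset.mul_sum]
    simp only [e2]
    rw [Finset.sum_add_distrib, Finset.sum_comm]
    congr 1
    refine Finset.sum_congr rfl fun a _ => ?_
    rw [Finset.sum_comm]
    refine Finset.sum_congr rfl fun b _ => ?_
    simp only [Fin.sum_univ_three]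
    ring
  have bN : |∑ j, c j * rl j (fun y => nsq (V y)) n| ≤ 2 * (vnrm t * w) := by
    rw [hN, abs_mul, abs_two, hwd]
    exact mul_le_mul_of_nonneg_left (xw2_cs _ _) two_pos.le
  have hterm : ∀ a b, |((∑ j, c j * rl j (H a b) n) * (V n a * V n b * X⁻¹) +
      H a b n * (((∑ j, c j * rl j (fun y => V y a) n) * V n b + V n a * (∑ j, c j * rl j (fun y => V y b) n)) * X⁻¹ +
        V n a * V n b * (-(X ^ 2)⁻¹ * (∑ j, c j * rl j (fun y => nsq (V y)) n))))| ≤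
      Λ * (2 * vnrm t + 2 * d / v + 2 * (vnrm t * w) / X) := by
    intro a b
    have q1 : |V n a * V n b * X⁻¹| ≤ 1 := by
      rw [← div_eq_mul_inv, hXd]
      exact xw2_q _ a b
    have q2 : |∑ j, c j * rl j (H a b) n| ≤ 2 * Λ * vnrm t := by
      rw [← hct]
      exact xw2_D c _ hΛ (bH a b)
    have q3 : |((∑ j, c j * rl j (fun y => V y a) n) * V n b + V n a * (∑ j, c j * rl j (fun y => V y b) n)) * X⁻¹| ≤
        2 * d / v := by
      rw [abs_mul, abs_of_pos (inv_pos.2 hX0)]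
      have r1 : |(∑ j, c j * rl j (fun y => V y a) n) * V n b| ≤ d * v := by
        rw [abs_mul, hvd]
        exact mul_le_mul (hd a) (xw2_comp _ b) (abs_nonneg _) hd0
      have r2 : |V n a * (∑ j, c j * rl j (fun y => V y b) n)| ≤ v * d := by
        rw [abs_mul, hvd]
        exact mul_le_mul (xw2_comp _ a) (hd b) (abs_nonneg _) (xw2_v0 _)
      have r3 : |(∑ j, c j * rl j (fun y => V y a) n) * V n b + V n a * (∑ j, c j * rl j (fun y => V y b) n)| ≤ 2 * d * v :=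
        (abs_add_le _ _).trans (by linarith)
      calc _ ≤ 2 * d * v * X⁻¹ := mul_le_mul_of_nonneg_right r3 (inv_pos.2 hX0).le
        _ = 2 * d / v := by
            rw [← hv2]
            field_simp
    have q4 : |V n a * V n b * (-(X ^ 2)⁻¹ * (∑ j, c j * rl j (fun y => nsq (V y)) n))| ≤ 2 * (vnrm t * w) / X := by
      have r1 : V n a * V n b * (-(X ^ 2)⁻¹ * (∑ j, c j * rl j (fun y => nsq (V y)) n)) =
          -((V n a * V n b * X⁻¹) * ((∑ j, c j * rl j (fun y => nsq (V y)) n) / X)) := by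
        field_simp
      rw [r1, abs_neg, abs_mul, abs_div, abs_of_pos hX0]
      calc _ ≤ 1 * (|∑ j, c j * rl j (fun y => nsq (V y)) n| / X) :=
            mul_le_mul_of_nonneg_right q1 (by positivity)
        _ ≤ 2 * (vnrm t * w) / X := by
            rw [one_mul]
            exact div_le_div_of_nonneg_right bN hX0.le
    refine (abs_add_le _ _).trans ?_
    rw [abs_mul, abs_mul (H a b n)]
    have s1 : |∑ j, c j * rl j (H a b) n| * |V n a * V n b * X⁻¹| ≤ 2 * Λ * vnrm t * 1 :=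
      mul_le_mul q2 q1 (abs_nonneg _) (by have := xw2_v0 t; positivity)
    have s2 : |H a b n| * |((∑ j, c j * rl j (fun y => V y a) n) * V n b + V n a * (∑ j, c j * rl j (fun y => V y b) n)) * X⁻¹ +
        V n a * V n b * (-(X ^ 2)⁻¹ * (∑ j, c j * rl j (fun y => nsq (V y)) n))| ≤
        Λ * (2 * d / v + 2 * (vnrm t * w) / X) :=
      mul_le_mul (bH0 a b) ((abs_add_le _ _).trans (add_le_add q3 q4)) (abs_nonneg _) hΛ
    linarith
  have hG1 : |∑ j, c j * rl j G n| ≤ 2 * Λ * vnrm t := by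
    rw [← hct]
    exact xw2_D c _ hΛ bG
  rw [e1, ← hvd, ← hwd, ← hXd]
  refine (abs_add_le _ _).trans ?_
  have hsum : |∑ a, ∑ b, ((∑ j, c j * rl j (H a b) n) * (V n a * V n b * X⁻¹) +
      H a b n * (((∑ j, c j * rl j (fun y => V y a) n) * V n b + V n a * (∑ j, c j * rl j (fun y => V y b) n)) * X⁻¹ +
        V n a * V n b * (-(X ^ 2)⁻¹ * (∑ j, c j * rl j (fun y => nsq (V y)) n))))| ≤
      9 * (Λ * (2 * vnrm t + 2 * d / v + 2 * (vnrm t * w) / X)) := by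
    refine (Finset.abs_sum_le_sum_abs _ _).trans ?_
    refine (Finset.sum_le_sum fun a _ => (Finset.abs_sum_le_sum_abs _ _).trans
      (Finset.sum_le_sum fun b _ => hterm a b)).trans (le_of_eq ?_)
    simp only [Finset.sum_const, Finset.card_univ, Fintype.card_fin, nsmul_eq_mul, Nat.cast_ofNat]
    ring
  have hfin : 2 * Λ * vnrm t + 9 * (Λ * (2 * vnrm t + 2 * d / v + 2 * (vnrm t * w) / X)) =
      Λ * (20 * vnrm t + 18 * d / v + 18 * vnrm t * w / X) := by ring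
  linarith

theorem dir_bd1 (hV : TF V) (n : S2) (k : Fin 3) :
    |∑ j, cr n (V n) j * rl j (fun y => V y k) n| ≤ vnrm (wv V n) + |cl V n| * vnrm (V n) + nsq (V n) := by
  rw [dir_V hV.td, DV_V hV.td]
  have h0 : ∑ i, V n i * V n i = nsq (V n) := by
    unfold nsq
    exact Finset.sum_congr rfl fun i _ => (pow_two _).symm
  rw [h0]
  have h1 : |wv V n k| ≤ vnrm (wv V n) := xw2_comp _ k
  have h2 : |cl V n * cr n (V n) k| ≤ |cl V n| * vnrm (V n) := by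
    rw [abs_mul]
    refine mul_le_mul_of_nonneg_left ?_ (abs_nonneg _)
    rw [← xw2_cr n (hV.tan n)]
    exact xw2_comp _ k
  have h3 : |nsq (V n) * (n : E3) k| ≤ nsq (V n) := by
    rw [abs_mul, abs_of_nonneg (xw2_nn _)]
    have h4 : |(n : E3) k| ≤ 1 := by
      have h5 := sph_sq n
      have h6 : (n : E3) k ^ 2 ≤ 1 := by
        fin_cases k <;> simp only [Fin.zero_eta, Fin.mk_one, Fin.reduceFinMk] <;> nlinarith [sq_nonneg ((n : E3) 0), sq_nonneg ((n : E3) 1), sq_nonneg ((n : E3) 2)]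
      exact (sq_le_one_iff_abs_le_one _).1 h6
    exact (mul_le_mul_of_nonneg_left h4 (xw2_nn _)).trans (by rw [mul_one])
  calc |wv V n k + cl V n * cr n (V n) k - nsq (V n) * (n : E3) k|
      ≤ |wv V n k + cl V n * cr n (V n) k| + |nsq (V n) * (n : E3) k| := abs_sub _ _
    _ ≤ |wv V n k| + |cl V n * cr n (V n) k| + |nsq (V n) * (n : E3) k| := by
        have := abs_add_le (wv V n k) (cl V n * cr n (V n) k)
        linarith
    _ ≤ _ := by linarith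

theorem dir_bd2 (hV : TF V) (n : S2) (k : Fin 3) :
    |∑ j, cr n (cr n (V n)) j * rl j (fun y => V y k) n| ≤ |dv V n| * vnrm (V n) + vnrm (wv V n) := by
  rw [dir_V hV.td, DV_JV hV.td, cr_dot_self, zero_mul, sub_zero]
  have ht : ∑ i, (n : E3) i * (dv V n * V n i - wv V n i) = 0 := by
    have h1 := hV.tan n
    have h2 := wv_tan V n
    have h3 : ∑ i, (n : E3) i * (dv V n * V n i - wv V n i) =
        dv V n * (∑ i, (n : E3) i * V n i) - ∑ i, (n : E3) i * wv V n i := by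
      rw [Finset.mul_sum, ← Finset.sum_sub_distrib]
      exact Finset.sum_congr rfl fun i _ => by ring
    rw [h3, h1, h2]
    ring
  calc |cr n (fun i => dv V n * V n i - wv V n i) k| ≤ vnrm (cr n (fun i => dv V n * V n i - wv V n i)) :=
        xw2_comp _ k
    _ = vnrm (fun i => dv V n * V n i - wv V n i) := xw2_cr n ht
    _ ≤ vnrm (fun i => dv V n * V n i) + vnrm (wv V n) := xw2_tri _ _
    _ = |dv V n| * vnrm (V n) + vnrm (wv V n) := by rw [xw2_smul]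

private theorem xw2_pos {v : Fin 3 → ℝ} (hX : 0 < nsq v) : 0 < vnrm v := by
  unfold vnrm
  exact Real.sqrt_pos.2 hX

theorem ff_V (hV : TF V) (hG : ContDiff ℝ ∞ G) (hH : ∀ a b, ContDiff ℝ ∞ (H a b)) (n : S2) (hX : 0 < nsq (V n)) {Λ : ℝ}
    (hΛ : 0 ≤ Λ) (bG : ∀ j, |rl j G n| ≤ Λ) (bH : ∀ a b j, |rl j (H a b) n| ≤ Λ) (bH0 : ∀ a b, |H a b n| ≤ Λ) :
    |∑ i, V n i * gd (ffun G H V) n i| ≤ 40 * Λ * (vnrm (V n) + vnrm (wv V n) / vnrm (V n) + |cl V n|) := by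
  refine (ff_dir hV hG hH n hX hΛ bG bH bH0 (hV.tan n) (dir_bd1 hV n)).trans ?_
  have hv := xw2_pos hX
  have hw := xw2_v0 (wv V n)
  rw [← xw2_vn (V n)]
  obtain ⟨v, hvd⟩ : ∃ v : ℝ, v = vnrm (V n) := ⟨_, rfl⟩
  obtain ⟨w, hwd⟩ : ∃ w : ℝ, w = vnrm (wv V n) := ⟨_, rfl⟩
  rw [← hvd, ← hwd]
  rw [← hvd] at hv
  rw [← hwd] at hw
  have e1 : 20 * v + 18 * (w + |cl V n| * v + v ^ 2) / v + 18 * v * w / v ^ 2 = 38 * v + 36 * (w / v) + 18 * |cl V n| := by
    field_simp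
    ring
  rw [e1]
  have h1 : 0 ≤ w / v := by positivity
  have h2 := abs_nonneg (cl V n)
  have h3 : 38 * v + 36 * (w / v) + 18 * |cl V n| ≤ 40 * (v + w / v + |cl V n|) := by linarith
  calc Λ * (38 * v + 36 * (w / v) + 18 * |cl V n|) ≤ Λ * (40 * (v + w / v + |cl V n|)) :=
        mul_le_mul_of_nonneg_left h3 hΛ
    _ = _ := by ring

theorem ff_JV (hV : TF V) (hG : ContDiff ℝ ∞ G) (hH : ∀ a b, ContDiff ℝ ∞ (H a b)) (n : S2) (hX : 0 < nsq (V n)) {Λ : ℝ}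
    (hΛ : 0 ≤ Λ) (bG : ∀ j, |rl j G n| ≤ Λ) (bH : ∀ a b j, |rl j (H a b) n| ≤ Λ) (bH0 : ∀ a b, |H a b n| ≤ Λ) :
    |∑ i, cr n (V n) i * gd (ffun G H V) n i| ≤ 40 * Λ * (vnrm (V n) + vnrm (wv V n) / vnrm (V n) + |dv V n|) := by
  refine (ff_dir hV hG hH n hX hΛ bG bH bH0 (cr_tan n (V n)) (dir_bd2 hV n)).trans ?_
  have hv := xw2_pos hX
  have hw := xw2_v0 (wv V n)
  rw [← xw2_vn (V n), xw2_cr n (hV.tan n)]
  obtain ⟨v, hvd⟩ : ∃ v : ℝ, v = vnrm (V n) := ⟨_, rfl⟩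
  obtain ⟨w, hwd⟩ : ∃ w : ℝ, w = vnrm (wv V n) := ⟨_, rfl⟩
  rw [← hvd, ← hwd]
  rw [← hvd] at hv
  rw [← hwd] at hw
  have e1 : 20 * v + 18 * (|dv V n| * v + w) / v + 18 * v * w / v ^ 2 = 20 * v + 36 * (w / v) + 18 * |dv V n| := by
    field_simp
    ring
  rw [e1]
  have h1 : 0 ≤ w / v := by positivity
  have h2 := abs_nonneg (dv V n)
  have h3 : 20 * v + 36 * (w / v) + 18 * |dv V n| ≤ 40 * (v + w / v + |dv V n|) := by linarith
  calc Λ * (20 * v + 36 * (w / v) + 18 * |dv V n|) ≤ Λ * (40 * (v + w / v + |dv V n|)) :=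
        mul_le_mul_of_nonneg_left h3 hΛ
    _ = _ := by ring

end H17S
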