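import Mathlib

set_option autoImplicit false

/-!
Chunk XW3 (M, pure real inequalities). The divergence term is large.
Proof. Choose `G0 = 10 Λ + 1 + M`, `M` large (below). `p0 p >= p0² - |p0| >= p0²/2 - 1/2` (`|p - p0| <= 1`), `p0 >= 2 Γ - 20 Λ >= 0`, so `p0²/2 >= 2 (Γ - 10 Λ)²`; `q0 q >= q0² - |q0| >= - 1/4`; `|q| <= 2 p2 + 20 Λ + 1`, `|p| <= 2 Γ + 20 Λ + 1`, `w/v <= w/s0`, `v <= A (1 + Γ)`. So
the right side is `>= 2 (Γ - 10 Λ)² - 1 - 160 Λ (A (1 + Γ) + w/s0) - 80 Λ (2 p2 + 2 Γ + 40 Λ + 2)`; it remains `2 (Γ - 10 Λ)² - 1 - 160 Λ A (1 + Γ) - 80 Λ (2 Γ + 2 p2 + 40 Λ + 2) >= Γ²`, a quadratic polynomial in `Γ` with leading coefficient `1`: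
`Γ² - b Γ - c >= 0` with `b = 40 Λ + 160 Λ A + 160 Λ`, `c = 1 + 160 Λ A + 80 Λ (2 p2 + 40 Λ + 2)` (the term `200 Λ²` is `>= 0`): true for `Γ >= b + c` if `b + c >= 1`. Take `G0 = 10 Λ + 1 + b + c`.
-/

namespace H17S

theorem xw3_quad {b c Γ : ℝ} (hb : 0 ≤ b) (hc : 1 ≤ c) (h : b + c ≤ Γ) : 0 ≤ Γ ^ 2 - b * Γ - c := by
  have h1 : 1 ≤ Γ := by linarith
  have h2 : (b + c) * Γ ≤ Γ * Γ := mul_le_mul_of_nonneg_right h (by linarith)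
  have h3 : c * 1 ≤ c * Γ := mul_le_mul_of_nonneg_left h1 (by linarith)
  nlinarith

theorem xw3_sq {a b : ℝ} (h : |b - a| ≤ 1) : a ^ 2 - |a| ≤ a * b := by
  have h1 : -(|a|) ≤ a * (b - a) := by
    have := neg_abs_le (a * (b - a))
    rw [abs_mul] at this
    have h2 : |a| * |b - a| ≤ |a| * 1 := mul_le_mul_of_nonneg_left h (abs_nonneg a)
    linarith
  have e : a * b = a ^ 2 + a * (b - a) := by ring
  linarith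

theorem xw3_p {a b : ℝ} (h : |b - a| ≤ 1) : a ^ 2 / 2 - 1 / 2 ≤ a * b := by
  have h1 := xw3_sq h
  have h2 : 0 ≤ (|a| - 1) ^ 2 := sq_nonneg _
  have h3 : (|a| - 1) ^ 2 = a ^ 2 - 2 * |a| + 1 := by
    rw [sub_sq, sq_abs]; ring
  linarith

theorem xw3_q {a b : ℝ} (h : |b - a| ≤ 1) : -(1 / 4 : ℝ) ≤ a * b := by
  have h1 := xw3_sq h
  have h2 : 0 ≤ (|a| - 1 / 2) ^ 2 := sq_nonneg _
  have h3 : (|a| - 1 / 2) ^ 2 = a ^ 2 - |a| + 1 / 4 := by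
    rw [sub_sq, sq_abs]; ring
  linarith

theorem w3_num {Λ A p2 s0 : ℝ} (hΛ : 0 ≤ Λ) (hA : 0 ≤ A) (hp : 0 ≤ p2) (hs : 0 < s0) : ∃ G0 : ℝ, 1 ≤ G0 ∧
    ∀ Γ v w p q p0 q0 N D1 D2 : ℝ, G0 ≤ Γ → 0 ≤ w → s0 ≤ v → v ≤ A * (1 + Γ) → |p - p0| ≤ 1 → |q - q0| ≤ 1 →
      |p0 - 2 * Γ| ≤ 20 * Λ → |q0 + 2 * N| ≤ 20 * Λ → |N| ≤ p2 → |D1| ≤ 80 * Λ * (v + w / v + |q|) →
      |D2| ≤ 80 * Λ * (v + w / v + |p|) → Γ ^ 2 - 160 * Λ / s0 * w ≤ p0 * p + q0 * q + D1 - D2 := by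
  have hΛA : 0 ≤ Λ * A := mul_nonneg hΛ hA
  have hΛp : 0 ≤ Λ * p2 := mul_nonneg hΛ hp
  have hΛ2 : 0 ≤ Λ * Λ := mul_nonneg hΛ hΛ
  refine ⟨10 * Λ + 1 + (40 * Λ + 160 * (Λ * A) + 160 * Λ) + (1 + 160 * (Λ * A) + 80 * (2 * (Λ * p2) + 40 * (Λ * Λ) + 2 * Λ)),
    by linarith, ?_⟩
  intro Γ v w p q p0 q0 N D1 D2 hG hw hv hvA hpp hqq hp0 hq0 hN hD1 hD2
  have hΓ10 : 10 * Λ + 1 ≤ Γ := by linarith
  have hv0 : 0 < v := lt_of_lt_of_le hs hv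
  have hwv : w / v ≤ w / s0 := div_le_div_of_nonneg_left hw hs hv
  have hquad : 0 ≤ Γ ^ 2 - (40 * Λ + 160 * (Λ * A) + 160 * Λ) * Γ - (1 + 160 * (Λ * A) + 80 * (2 * (Λ * p2) + 40 * (Λ * Λ) + 2 * Λ)) := by
    apply xw3_quad
    · linarith
    · linarith
    · linarith
  have hpp' := abs_le.mp hpp
  have hqq' := abs_le.mp hqq
  have hp0' := abs_le.mp hp0
  have hq0' := abs_le.mp hq0
  have hN' := abs_le.mp hN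
  have hD1' := abs_le.mp hD1
  have hD2' := abs_le.mp hD2
  have hq1 : |q| ≤ 2 * p2 + 20 * Λ + 1 := by
    rw [abs_le]; constructor <;> linarith
  have hp1 : |p| ≤ 2 * Γ + 20 * Λ + 1 := by
    rw [abs_le]; constructor <;> linarith
  have hp0pos : 0 ≤ 2 * (Γ - 10 * Λ) := by linarith
  have hp0low : 2 * (Γ - 10 * Λ) ≤ p0 := by linarith
  have h1 : p0 ^ 2 / 2 - 1 / 2 ≤ p0 * p := xw3_p hpp
  have h2 : 2 * (Γ - 10 * Λ) ^ 2 ≤ p0 ^ 2 / 2 := by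
    have := mul_self_le_mul_self hp0pos hp0low
    have e1 : 2 * (Γ - 10 * Λ) * (2 * (Γ - 10 * Λ)) = 4 * (Γ - 10 * Λ) ^ 2 := by ring
    have e2 : p0 * p0 = p0 ^ 2 := by ring
    rw [e1, e2] at this
    linarith
  have h3 : -(1 / 4 : ℝ) ≤ q0 * q := xw3_q hqq
  have h4 : Λ * (v + w / v + |q|) ≤ Λ * (A * (1 + Γ) + w / s0 + (2 * p2 + 20 * Λ + 1)) :=
    mul_le_mul_of_nonneg_left (by linarith) hΛ
  have h5 : Λ * (v + w / v + |p|) ≤ Λ * (A * (1 + Γ) + w / s0 + (2 * Γ + 20 * Λ + 1)) :=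
    mul_le_mul_of_nonneg_left (by linarith) hΛ
  have h6 : 160 * Λ / s0 * w = 160 * (Λ * (w / s0)) := by ring
  rw [h6]
  have e4 : Λ * (A * (1 + Γ) + w / s0 + (2 * p2 + 20 * Λ + 1)) = Λ * A + Λ * A * Γ + Λ * (w / s0) + 2 * (Λ * p2) + 20 * (Λ * Λ) + Λ := by ring
  have e5 : Λ * (A * (1 + Γ) + w / s0 + (2 * Γ + 20 * Λ + 1)) = Λ * A + Λ * A * Γ + Λ * (w / s0) + 2 * (Λ * Γ) + 20 * (Λ * Λ) + Λ := by ring
  rw [e4] at h4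
  rw [e5] at h5
  have e1 : 2 * (Γ - 10 * Λ) ^ 2 = 2 * Γ ^ 2 - 40 * (Λ * Γ) + 200 * (Λ * Λ) := by ring
  have e2 : (40 * Λ + 160 * (Λ * A) + 160 * Λ) * Γ = 200 * (Λ * Γ) + 160 * (Λ * A * Γ) := by ring
  rw [e2] at hquad
  rw [e1] at h2
  linarith [hD1'.1, hD2'.2]

end H17S
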