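import Pool.Agent.Lib.H17S.N7

set_option autoImplicit false

/-!
Chunk XW4 (M/L). The integral inequality of the weak maximum principle. `X = nsq (V n)`, `p = dv V n`, `q = cl V n`, `w = wv V n`, `Om`, `om` below (`κ` a natural number).
`om_der`: `x ↦ (max (x - X1) 0)^(κ+2)` has the derivative `(κ+2) (max (x - X1) 0)^(κ+1)`: for `x < X1` and `x > X1` clear, at `X1`: `0 <= Om <= |x - X1|^(κ+2) <= |x - X1|²` near `X1` (`hasDerivAt_iff_isLittleO` or `HasDerivAt` of `x ↦ x^(κ+2) * indicator`; or: `(max t 0)^(κ+2) = ∫_0^t ..`).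
`om_mul`: `Om x * (κ+2) = om x * max (x - X1) 0`.
`cont_cut`: if `E : S2 → ℝ` is continuous at the points with `0 < nsq (V n)` and `φ` is continuous with `φ x = 0` for `x <= X1`, then `n ↦ φ (nsq (V n)) * E n` is continuous: at points with `nsq > 0` a product of continuous functions; at points with `nsq < X1` it is `0` near the point. For `p0` with `ContDiffAt ℝ 1 p0 n`:
`p0` and `fderiv ℝ p0` are continuous at `n` (`ContDiffAt.continuousAt`, `ContDiffAt.fderiv_right`), so `n ↦ p0 n`, `n ↦ gd p0 n i` are continuous at `n` as functions on the sphere (`gd` = sum of `jm n j i * fderiv ℝ p0 n (rotv j n)`; `jm_cont`).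
`wmp_int`: `Φ x = (1/2) ∫_0^x t om t >= 0` for `x >= 0`. By `wmp1`, `∫ om |w|² <= ∫ om ∑ w_i (p V_i - q cr V_i)`. Pointwise `om ∑ w_i (p V_i - q cr V_i) <= om ∑ w_i (p0 V_i - q0 cr V_i) + om |w| 2 η L` (for `X > X1`; for `X <= X1` all is `0` as `om = 0`; Cauchy-Schwarz, `nsq_cr`). By `wmp2` (with `x0 = 0`, `x1 = X1`)
`∫ om ∑ w_i (p0 V_i - q0 cr V_i) = - (1/2) ∫ Om E <= - (1/2) ∫ Om (G² - K1 |w|)`. With `d = (X - X1)_+/(κ+2)`, `Om = om d`: `(K1/2) Om |w| <= om |w|²/4 + K1² d Om/4 <= om |w|²/4 + (K1² L²/(4 (κ+2))) Om <= om |w|²/4 + (G²/4) Om` (`X <= L²`) and `2 η L om |w| <= om |w|²/4 + 4 η² L² om`. So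
`(1/2) ∫ om |w|² <= - (G²/4) ∫ Om + 4 η² L² ∫ om`, and `om <= (κ+2) (L²)^(κ+1)` (`X1 > 0`), `∫ 1 = 4 π` (`NullS.sm_real` or `Pool.Agent.Lib.PenroseSph.sm_univ`). All integrands are continuous on the sphere (`cont_cut`, N4), hence integrable (`cont_int`).
-/

open MeasureTheory Filter Topology Set
open scoped ContDiff ComplexConjugate

namespace H17S

open NullPen (E3 S2 sm proj)
open NullU (rl crs dtB Tng vnrm)
open Sph

/-- Cut-off power. -/
noncomputable def Omk (κ : ℕ) (X1 x : ℝ) : ℝ := (max (x - X1) 0) ^ (κ + 2)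

/-- Its derivative. -/
noncomputable def omk (κ : ℕ) (X1 x : ℝ) : ℝ := (κ + 2) * (max (x - X1) 0) ^ (κ + 1)

theorem xw4_max (κ : ℕ) (t : ℝ) : HasDerivAt (fun t : ℝ => (max t 0) ^ (κ + 2)) ((κ + 2) * (max t 0) ^ (κ + 1)) t := by
  rcases lt_trichotomy t 0 with h | h | h
  · rw [max_eq_right h.le, zero_pow (by omega), mul_zero]
    have h1 : (fun t : ℝ => (max t 0) ^ (κ + 2)) =ᶠ[𝓝 t] fun _ => 0 := by
      filter_upwards [gt_mem_nhds h] with s hs
      rw [max_eq_right hs.le, zero_pow (by omega)]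
    exact (hasDerivAt_const t (0 : ℝ)).congr_of_eventuallyEq h1
  · subst h
    rw [max_self, zero_pow (by omega), mul_zero, hasDerivAt_iff_isLittleO]
    simp only [max_self, zero_pow (show κ + 2 ≠ 0 by omega), sub_zero, smul_zero]
    rw [Asymptotics.isLittleO_iff]
    intro c hc
    filter_upwards [Metric.ball_mem_nhds (0 : ℝ) (lt_min hc one_pos)] with s hs
    rw [Metric.mem_ball, dist_zero_right, Real.norm_eq_abs, lt_min_iff] at hs
    rw [Real.norm_eq_abs, Real.norm_eq_abs, abs_pow]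
    have h1 : |max s 0| ≤ |s| := by
      rw [abs_of_nonneg (le_max_right _ _)]
      exact max_le (le_abs_self s) (abs_nonneg s)
    calc |max s 0| ^ (κ + 2) ≤ |s| ^ (κ + 2) := pow_le_pow_left₀ (abs_nonneg _) h1 _
      _ = |s| ^ κ * |s| * |s| := by ring
      _ ≤ 1 * c * |s| := by
        have h2 : |s| ^ κ ≤ 1 := pow_le_one₀ (abs_nonneg _) hs.2.le
        have h3 := abs_nonneg s
        have h4 : |s| ^ κ * |s| ≤ 1 * c := mul_le_mul h2 hs.1.le h3 (by norm_num)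
        exact mul_le_mul_of_nonneg_right h4 h3
      _ = c * |s| := by ring
  · rw [max_eq_left h.le]
    have h1 : (fun t : ℝ => (max t 0) ^ (κ + 2)) =ᶠ[𝓝 t] fun s => s ^ (κ + 2) := by
      filter_upwards [lt_mem_nhds h] with s hs
      rw [max_eq_left hs.le]
    have h2 := hasDerivAt_pow (κ + 2) t
    refine (h2.congr_of_eventuallyEq h1).congr_deriv ?_
    push_cast
    rfl

theorem om_der (κ : ℕ) (X1 x : ℝ) : HasDerivAt (Omk κ X1) (omk κ X1 x) x := by
  have h1 := xw4_max κ (x - X1)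
  have h2 : HasDerivAt (fun x : ℝ => x - X1) 1 x := (hasDerivAt_id x).sub_const X1
  have h3 := HasDerivAt.comp (h₂ := fun t : ℝ => (max t 0) ^ (κ + 2)) (h := fun x : ℝ => x - X1) x h1 h2
  rw [mul_one] at h3
  exact h3

theorem om_mul (κ : ℕ) (X1 x : ℝ) : Omk κ X1 x * (κ + 2) = omk κ X1 x * max (x - X1) 0 := by
  unfold Omk omk
  ring

variable {V : E3 → Fin 3 → ℝ}

theorem cont_cut (hV : TF V) {φ : ℝ → ℝ} (hφ : Continuous φ) {X1 : ℝ} (h1 : 0 < X1) (h0 : ∀ x ≤ X1, φ x = 0) {E : S2 → ℝ}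
    (hE : ∀ n : S2, 0 < nsq (V n) → ContinuousAt E n) : Continuous (fun n : S2 => φ (nsq (V n)) * E n) := by
  have hc : Continuous (fun n : S2 => nsq (V n)) := nsq_cont fun i => hV.c1 i
  rw [continuous_iff_continuousAt]
  intro n
  by_cases h : 0 < nsq (V n)
  · exact ((hφ.comp hc).continuousAt).mul (hE n h)
  · have h2 : nsq (V n) < X1 := by linarith
    have h3 : (fun n : S2 => φ (nsq (V n)) * E n) =ᶠ[𝓝 n] fun _ => 0 := by
      filter_upwards [hc.continuousAt.eventually (gt_mem_nhds h2)] with m hm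
      rw [h0 _ hm.le, zero_mul]
    exact (continuousAt_const (y := (0 : ℝ))).congr h3.symm

theorem xw4_rl_contAt {p0 : E3 → ℝ} {n : S2} (h : ContDiffAt ℝ 1 p0 n) (j : Fin 3) : ContinuousAt (fun n : S2 => rl j p0 n) n := by
  have h1 : ContinuousAt (fderiv ℝ p0) (n : E3) := (h.fderiv_right (m := 0) (by norm_num)).continuousAt
  have h2 : ContinuousAt (fun n : S2 => fderiv ℝ p0 (n : E3)) n :=
    ContinuousAt.comp (f := fun n : S2 => (n : E3)) (x := n) h1 continuous_subtype_val.continuousAt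
  have h3 : Continuous (fun n : S2 => NShell.rotv j (n : E3)) := by
    have := (NShell.contDiff_rotv j).continuous
    exact this.comp continuous_subtype_val
  exact h2.clm_apply h3.continuousAt

theorem gd_contAt {p0 : E3 → ℝ} {n : S2} (h : ContDiffAt ℝ 1 p0 n) (i : Fin 3) : ContinuousAt (fun n : S2 => gd p0 n i) n := by
  unfold gd
  exact tendsto_finsetSum _ fun j _ => ((jm_cont j i).continuousAt).mul (xw4_rl_contAt h j)

theorem xw4_vnrm_sq (v : Fin 3 → ℝ) : vnrm v ^ 2 = nsq v :=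
  Real.sq_sqrt (Finset.sum_nonneg fun i _ => sq_nonneg (v i))

theorem xw4_vnrm_nonneg (v : Fin 3 → ℝ) : 0 ≤ vnrm v := Real.sqrt_nonneg _

theorem xw4_cs (v w : Fin 3 → ℝ) : ∑ i, v i * w i ≤ vnrm v * vnrm w := by
  have h := Finset.sum_mul_sq_le_sq_mul_sq Finset.univ v w
  have h1 : (∑ i, v i * w i) ^ 2 ≤ (vnrm v * vnrm w) ^ 2 := by
    rw [mul_pow, xw4_vnrm_sq, xw4_vnrm_sq]
    exact h
  exact le_of_abs_le (abs_le_of_sq_le_sq h1 (mul_nonneg (xw4_vnrm_nonneg v) (xw4_vnrm_nonneg w)))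

theorem xw4_cs' (v w : Fin 3 → ℝ) : |∑ i, v i * w i| ≤ vnrm v * vnrm w := by
  have h := Finset.sum_mul_sq_le_sq_mul_sq Finset.univ v w
  have h1 : (∑ i, v i * w i) ^ 2 ≤ (vnrm v * vnrm w) ^ 2 := by
    rw [mul_pow, xw4_vnrm_sq, xw4_vnrm_sq]
    exact h
  exact abs_le_of_sq_le_sq h1 (mul_nonneg (xw4_vnrm_nonneg v) (xw4_vnrm_nonneg w))

theorem xw4_vnrm_cr (hV : TF V) (n : S2) : vnrm (cr n (V n)) = vnrm (V n) := by
  have h := nsq_cr n (hV.tan n)
  have h1 : ∀ v : Fin 3 → ℝ, vnrm v = √(nsq v) := fun v => rfl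
  rw [h1, h1, h]

theorem wmp_int (hV : TF V) {X1 G K1 L η : ℝ} (κ : ℕ) (hX1 : 0 < X1) (hG : 0 < G) (hK : 0 ≤ K1) (hL : 0 ≤ L) (hη : 0 ≤ η)
    {p0 q0 : E3 → ℝ} (hp : ∀ n : S2, 0 < nsq (V n) → ContDiffAt ℝ 1 p0 n) (hq : ∀ n : S2, 0 < nsq (V n) → ContDiffAt ℝ 1 q0 n)
    (hbd : ∀ n : S2, vnrm (V n) ≤ L) (hnear : ∀ n : S2, X1 < nsq (V n) → |dv V n - p0 n| ≤ η ∧ |cl V n - q0 n| ≤ η)
    (hdiv : ∀ n : S2, X1 < nsq (V n) → G ^ 2 - K1 * vnrm (wv V n) ≤
      p0 n * dv V n + q0 n * cl V n + ∑ i, V n i * gd p0 n i - ∑ i, cr n (V n) i * gd q0 n i)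
    (hκ : K1 ^ 2 * L ^ 2 ≤ G ^ 2 * (κ + 2)) :
    G ^ 2 / 4 * ∫ n : S2, Omk κ X1 (nsq (V n)) ∂sm ≤ 4 * η ^ 2 * L ^ 2 * (4 * Real.pi * ((κ + 2) * (L ^ 2) ^ (κ + 1))) := by
  have hc : Continuous (fun n : S2 => nsq (V n)) := nsq_cont fun i => hV.c1 i
  have mc : Continuous (fun x : ℝ => max (x - X1) 0) := by fun_prop
  have oc : Continuous (omk κ X1) := continuous_const.mul (mc.pow _)
  have Oc : Continuous (Omk κ X1) := mc.pow _
  have o0 : ∀ x ≤ X1, omk κ X1 x = 0 := by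
    intro x hx
    unfold omk
    rw [max_eq_right (by linarith), zero_pow (by omega), mul_zero]
  have O0 : ∀ x ≤ X1, Omk κ X1 x = 0 := by
    intro x hx
    unfold Omk
    rw [max_eq_right (by linarith), zero_pow (by omega)]
  have on : ∀ x, 0 ≤ omk κ X1 x := fun x => mul_nonneg (by positivity) (pow_nonneg (le_max_right _ _) _)
  have On : ∀ x, 0 ≤ Omk κ X1 x := fun x => pow_nonneg (le_max_right _ _) _
  have nn : ∀ n : S2, 0 ≤ nsq (V n) := fun n => Finset.sum_nonneg fun i _ => sq_nonneg _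
  have nL : ∀ n : S2, nsq (V n) ≤ L ^ 2 := by
    intro n
    rw [← xw4_vnrm_sq]
    exact pow_le_pow_left₀ (xw4_vnrm_nonneg _) (hbd n) 2
  obtain ⟨Φ, hΦ⟩ : ∃ Φ : ℝ → ℝ, Φ = fun x => (1 / 2) * ∫ t in (0 : ℝ)..x, t * omk κ X1 t := ⟨_, rfl⟩
  have hΦ0 : ∀ x, 0 ≤ x → 0 ≤ Φ x := by
    intro x hx
    rw [hΦ]
    refine mul_nonneg (by norm_num) (intervalIntegral.integral_nonneg hx fun t ht => ?_)
    exact mul_nonneg ht.1 (on t)
  have hΦi : 0 ≤ ∫ n : S2, Φ (nsq (V n)) ∂sm := integral_nonneg fun n => hΦ0 _ (nn n)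
  have e1 := wmp1 hV oc (Φ := Φ) (fun x _ => by rw [hΦ])
  have e2 := wmp2 hV (om_der κ X1) oc (x0 := 0) (x1 := X1) hX1 (fun x hx => O0 x hx) hp hq
  -- continuity
  have wc : ∀ i, Continuous (fun n : S2 => wv V n i) := fun i => wv_cont (fun i => hV.c1 i) i
  have Vc : ∀ i, Continuous (fun n : S2 => V n i) := fun i => (hV.c1 i).cont0
  have crc : ∀ i, Continuous (fun n : S2 => cr n (V n) i) := fun i => (C1S.cr (fun i => hV.c1 i) i).cont0
  have dc : Continuous (fun n : S2 => dv V n) := dv_cont fun i => hV.c1 i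
  have cc : Continuous (fun n : S2 => cl V n) := cl_cont fun i => hV.c1 i
  have nwc : Continuous (fun n : S2 => nsq (wv V n)) := continuous_finsetSum _ fun i _ => (wc i).pow 2
  have vwc : Continuous (fun n : S2 => vnrm (wv V n)) := nwc.sqrt
  have i1 : Integrable (fun n : S2 => omk κ X1 (nsq (V n)) * nsq (wv V n)) sm := cont_int ((oc.comp hc).mul nwc)
  have i2 : Integrable (fun n : S2 => omk κ X1 (nsq (V n)) * ∑ i, wv V n i * (dv V n * V n i - cl V n * cr n (V n) i)) sm :=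
    cont_int ((oc.comp hc).mul (continuous_finsetSum _ fun i _ => (wc i).mul ((dc.mul (Vc i)).sub (cc.mul (crc i)))))
  have p0c : ∀ n : S2, 0 < nsq (V n) → ContinuousAt (fun n : S2 => p0 n) n := fun n hn =>
    ContinuousAt.comp (f := fun n : S2 => (n : E3)) (x := n) (hp n hn).continuousAt continuous_subtype_val.continuousAt
  have q0c : ∀ n : S2, 0 < nsq (V n) → ContinuousAt (fun n : S2 => q0 n) n := fun n hn =>
    ContinuousAt.comp (f := fun n : S2 => (n : E3)) (x := n) (hq n hn).continuousAt continuous_subtype_val.continuousAt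
  have i3 : Integrable (fun n : S2 => omk κ X1 (nsq (V n)) * ∑ i, wv V n i * (p0 n * V n i - q0 n * cr n (V n) i)) sm := by
    refine cont_int (cont_cut hV oc hX1 o0 fun n hn => ?_)
    exact tendsto_finsetSum _ fun i _ => ((wc i).continuousAt).mul
      (((p0c n hn).mul (Vc i).continuousAt).sub ((q0c n hn).mul (crc i).continuousAt))
  have i4 : Integrable (fun n : S2 => Omk κ X1 (nsq (V n)) * (p0 n * dv V n + q0 n * cl V n + ∑ i, V n i * gd p0 n i -
        ∑ i, cr n (V n) i * gd q0 n i)) sm := by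
    refine cont_int (cont_cut hV Oc hX1 O0 fun n hn => ?_)
    refine ContinuousAt.sub (ContinuousAt.add (ContinuousAt.add ((p0c n hn).mul dc.continuousAt) ((q0c n hn).mul cc.continuousAt)) ?_) ?_
    · exact tendsto_finsetSum _ fun i _ => ((Vc i).continuousAt).mul (gd_contAt (hp n hn) i)
    · exact tendsto_finsetSum _ fun i _ => ((crc i).continuousAt).mul (gd_contAt (hq n hn) i)
  have i5 : Integrable (fun n : S2 => omk κ X1 (nsq (V n)) * vnrm (wv V n) * (2 * η * L)) sm :=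
    cont_int (((oc.comp hc).mul vwc).mul continuous_const)
  have iO : Integrable (fun n : S2 => Omk κ X1 (nsq (V n))) sm := cont_int (Oc.comp hc)
  have io : Integrable (fun n : S2 => omk κ X1 (nsq (V n))) sm := cont_int (oc.comp hc)
  -- first pointwise inequality
  have q1 : ∀ n : S2, omk κ X1 (nsq (V n)) * ∑ i, wv V n i * (dv V n * V n i - cl V n * cr n (V n) i) ≤
      omk κ X1 (nsq (V n)) * ∑ i, wv V n i * (p0 n * V n i - q0 n * cr n (V n) i) +
        omk κ X1 (nsq (V n)) * vnrm (wv V n) * (2 * η * L) := by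
    intro n
    rcases le_or_gt (nsq (V n)) X1 with h | h
    · rw [o0 _ h]
      simp
    · obtain ⟨h1, h2⟩ := hnear n h
      have h3 : ∑ i, wv V n i * (dv V n * V n i - cl V n * cr n (V n) i) =
          ∑ i, wv V n i * (p0 n * V n i - q0 n * cr n (V n) i) +
            ((dv V n - p0 n) * (∑ i, wv V n i * V n i) - (cl V n - q0 n) * ∑ i, wv V n i * cr n (V n) i) := by
        rw [Finset.mul_sum, Finset.mul_sum, ← Finset.sum_sub_distrib, ← Finset.sum_add_distrib]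
        exact Finset.sum_congr rfl fun i _ => by ring
      have h4 := xw4_cs' (wv V n) (V n)
      have h5 := xw4_cs' (wv V n) (cr n (V n))
      rw [xw4_vnrm_cr hV] at h5
      have hw := xw4_vnrm_nonneg (wv V n)
      have hv := xw4_vnrm_nonneg (V n)
      have h6 : vnrm (wv V n) * vnrm (V n) ≤ vnrm (wv V n) * L := mul_le_mul_of_nonneg_left (hbd n) hw
      have h7 : |(dv V n - p0 n) * (∑ i, wv V n i * V n i)| ≤ η * (vnrm (wv V n) * L) := by
        rw [abs_mul]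
        exact mul_le_mul h1 (h4.trans h6) (abs_nonneg _) hη
      have h8 : |(cl V n - q0 n) * ∑ i, wv V n i * cr n (V n) i| ≤ η * (vnrm (wv V n) * L) := by
        rw [abs_mul]
        exact mul_le_mul h2 (h5.trans h6) (abs_nonneg _) hη
      rw [h3, mul_add, mul_assoc (omk κ X1 (nsq (V n)))]
      have h9 : (dv V n - p0 n) * (∑ i, wv V n i * V n i) - (cl V n - q0 n) * ∑ i, wv V n i * cr n (V n) i ≤
          vnrm (wv V n) * (2 * η * L) := by
        have h10 := (abs_le.1 h7).2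
        have h11 := (abs_le.1 h8).1
        linarith
      linarith [mul_le_mul_of_nonneg_left h9 (on (nsq (V n)))]
  -- second pointwise inequality
  have q2 : ∀ n : S2, -(1 / 2) * (Omk κ X1 (nsq (V n)) * (p0 n * dv V n + q0 n * cl V n + ∑ i, V n i * gd p0 n i -
        ∑ i, cr n (V n) i * gd q0 n i)) + omk κ X1 (nsq (V n)) * vnrm (wv V n) * (2 * η * L) ≤
      1 / 2 * (omk κ X1 (nsq (V n)) * nsq (wv V n)) - G ^ 2 / 4 * Omk κ X1 (nsq (V n)) +
        4 * η ^ 2 * L ^ 2 * omk κ X1 (nsq (V n)) := by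
    intro n
    rcases le_or_gt (nsq (V n)) X1 with h | h
    · rw [o0 _ h, O0 _ h]
      simp
    · have h1 := hdiv n h
      have hm := om_mul κ X1 (nsq (V n))
      rw [max_eq_left (by linarith)] at hm
      have hk : (0 : ℝ) < κ + 2 := by positivity
      obtain ⟨d, hd⟩ : ∃ d : ℝ, d = (nsq (V n) - X1) / (κ + 2) := ⟨_, rfl⟩
      have hd0 : 0 ≤ d := by rw [hd]; exact div_nonneg (by linarith) hk.le
      have hOd : Omk κ X1 (nsq (V n)) = omk κ X1 (nsq (V n)) * d := by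
        rw [hd, ← mul_div_assoc, ← hm]
        field_simp
      have hdL : d * (κ + 2) ≤ L ^ 2 := by
        rw [hd, div_mul_cancel₀ _ hk.ne']
        linarith [nL n]
      have hKd : K1 ^ 2 * d ≤ G ^ 2 := by
        have h2 : K1 ^ 2 * d * (κ + 2) ≤ G ^ 2 * (κ + 2) := by
          calc K1 ^ 2 * d * (κ + 2) = K1 ^ 2 * (d * (κ + 2)) := by ring
            _ ≤ K1 ^ 2 * L ^ 2 := mul_le_mul_of_nonneg_left hdL (sq_nonneg _)
            _ ≤ _ := hκ
        exact le_of_mul_le_mul_right h2 hk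
      rw [← xw4_vnrm_sq (wv V n), hOd]
      generalize vnrm (wv V n) = w at h1 ⊢
      have ho := on (nsq (V n))
      generalize omk κ X1 (nsq (V n)) = o at ho ⊢
      generalize p0 n * dv V n + q0 n * cl V n + ∑ i, V n i * gd p0 n i - ∑ i, cr n (V n) i * gd q0 n i = E at h1 ⊢
      have h2 : o * d * (G ^ 2 - K1 * w) ≤ o * d * E := mul_le_mul_of_nonneg_left h1 (mul_nonneg ho hd0)
      have h3 : 0 ≤ o * (w / 2 - K1 * d / 2) ^ 2 := mul_nonneg ho (sq_nonneg _)
      have h4 : 0 ≤ o * (w / 2 - 2 * η * L) ^ 2 := mul_nonneg ho (sq_nonneg _)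
      have h5 : 0 ≤ o * d * (G ^ 2 - K1 ^ 2 * d) := mul_nonneg (mul_nonneg ho hd0) (by linarith)
      nlinarith [h2, h3, h4, h5]
  have s1 : ∫ n : S2, omk κ X1 (nsq (V n)) * ∑ i, wv V n i * (dv V n * V n i - cl V n * cr n (V n) i) ∂sm ≤
      (∫ n : S2, omk κ X1 (nsq (V n)) * ∑ i, wv V n i * (p0 n * V n i - q0 n * cr n (V n) i) ∂sm) +
        ∫ n : S2, omk κ X1 (nsq (V n)) * vnrm (wv V n) * (2 * η * L) ∂sm := by
    rw [← integral_add i3 i5]
    exact integral_mono i2 (i3.add i5) q1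
  have s2 : -(1 / 2) * (∫ n : S2, Omk κ X1 (nsq (V n)) * (p0 n * dv V n + q0 n * cl V n + ∑ i, V n i * gd p0 n i -
        ∑ i, cr n (V n) i * gd q0 n i) ∂sm) + ∫ n : S2, omk κ X1 (nsq (V n)) * vnrm (wv V n) * (2 * η * L) ∂sm ≤
      1 / 2 * (∫ n : S2, omk κ X1 (nsq (V n)) * nsq (wv V n) ∂sm) - G ^ 2 / 4 * (∫ n : S2, Omk κ X1 (nsq (V n)) ∂sm) +
        4 * η ^ 2 * L ^ 2 * ∫ n : S2, omk κ X1 (nsq (V n)) ∂sm := by
    have j1 : Integrable (fun n : S2 => 1 / 2 * (omk κ X1 (nsq (V n)) * nsq (wv V n))) sm := i1.const_mul _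
    have j2 : Integrable (fun n : S2 => G ^ 2 / 4 * Omk κ X1 (nsq (V n))) sm := iO.const_mul _
    have j3 : Integrable (fun n : S2 => 4 * η ^ 2 * L ^ 2 * omk κ X1 (nsq (V n))) sm := io.const_mul _
    have j4 : Integrable (fun n : S2 => 1 / 2 * (omk κ X1 (nsq (V n)) * nsq (wv V n)) - G ^ 2 / 4 * Omk κ X1 (nsq (V n))) sm := j1.sub j2
    have k1 : ∫ n : S2, (1 / 2 * (omk κ X1 (nsq (V n)) * nsq (wv V n)) - G ^ 2 / 4 * Omk κ X1 (nsq (V n)) +
        4 * η ^ 2 * L ^ 2 * omk κ X1 (nsq (V n))) ∂sm = 1 / 2 * (∫ n : S2, omk κ X1 (nsq (V n)) * nsq (wv V n) ∂sm) -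
        G ^ 2 / 4 * (∫ n : S2, Omk κ X1 (nsq (V n)) ∂sm) + 4 * η ^ 2 * L ^ 2 * ∫ n : S2, omk κ X1 (nsq (V n)) ∂sm := by
      rw [integral_add j4 j3, integral_sub j1 j2, integral_const_mul, integral_const_mul, integral_const_mul]
    rw [← k1, ← integral_const_mul, ← integral_add (i4.const_mul _) i5]
    exact integral_mono ((i4.const_mul _).add i5) (j4.add j3) q2
  have s3 : 0 ≤ ∫ n : S2, omk κ X1 (nsq (V n)) * nsq (wv V n) ∂sm :=
    integral_nonneg fun n => mul_nonneg (on _) (Finset.sum_nonneg fun i _ => sq_nonneg _)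
  have s4 : ∫ n : S2, omk κ X1 (nsq (V n)) ∂sm ≤ 4 * Real.pi * ((κ + 2) * (L ^ 2) ^ (κ + 1)) := by
    haveI : IsFiniteMeasure sm := by
      change IsFiniteMeasure ((volume : Measure E3).toSphere)
      infer_instance
    have h1 : ∫ n : S2, omk κ X1 (nsq (V n)) ∂sm ≤ ∫ _ : S2, (κ + 2) * (L ^ 2) ^ (κ + 1) ∂sm := by
      refine integral_mono io (integrable_const _) fun n => ?_
      show (κ + 2 : ℝ) * (max (nsq (V n) - X1) 0) ^ (κ + 1) ≤ (κ + 2) * (L ^ 2) ^ (κ + 1)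
      refine mul_le_mul_of_nonneg_left (pow_le_pow_left₀ (le_max_right _ _) ?_ _) (by positivity)
      exact max_le (by linarith [nL n]) (sq_nonneg L)
    have h2 : sm.real univ = 4 * Real.pi := Pool.Agent.Lib.PenroseSph.sm_univ
    rw [integral_const, h2, smul_eq_mul] at h1
    exact h1
  have s5 : 0 ≤ 4 * η ^ 2 * L ^ 2 := by positivity
  have s6 := mul_le_mul_of_nonneg_left s4 s5
  rw [e2] at s1
  linarith

end H17S
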