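import Pool.Agent.Lib.H17S.K.K4
import Pool.Agent.Lib.H17S.X.W4

set_option autoImplicit false

/-!
Chunk XW5 (M). If `|V|²` exceeds `X1 + θ` at a point, the integral of `Omk` is bounded from below.
Proof. Let `r = min 1 ((θ / (4 L H + 1))²) > 0`. `|nsq (V n) - nsq (V n0)| = |∑ (V n i - V n0 i)(V n i + V n0 i)| <= vnrm (V n - V n0) * 2 L <= 2 L H √(dist n n0)` (Cauchy-Schwarz, triangle inequality), which is `<= θ/2` if `dist n n0 <= r` (`√r <= θ/(4 L H + 1)`). So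
`nsq (V n) - X1 >= θ/2` there. `dist n n0 ^ 2 = 2 - 2 ∑ n0_i n_i` on the sphere. Put `F t = max 0 (t - (1 - r²/2))` (continuous, `F t <= r²/2 <= 1` for `t <= 1`, `F t > 0` implies `dist <= r`). So `Omk κ X1 (nsq (V n)) >= (θ/2)^(κ+2) * F (∑ n0_i n_i)` for all `n` (where `F = 0` the right side is `0`).
`hat_box`: `∫ F = 2π ∫_{-1}^1 F = 2π (r²/2)²/2 = π r⁴/4`. `c = (θ/2)^(κ+2) * (π r⁴/4)`. The integral over `[-1,1]`: at least `∫_{1-r²/2}^{1} (t - (1 - r²/2)) dt` (split the interval; only a lower bound is needed).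
-/

open MeasureTheory Filter Topology Set
open scoped ContDiff ComplexConjugate

namespace H17S

open NullPen (E3 S2 sm proj)
open NullU (rl crs dtB Tng vnrm)
open NullS (TE PE av)

theorem xw5_int {r : ℝ} (hr : 0 < r) (hr1 : r ≤ 1) : r ^ 4 / 8 ≤ ∫ t in (-1 : ℝ)..1, max 0 (t - (1 - r ^ 2 / 2)) := by
  have hc : Continuous (fun t : ℝ => max 0 (t - (1 - r ^ 2 / 2))) := by fun_prop
  have hr2 : r ^ 2 ≤ 1 := by nlinarith
  have ha : (-1 : ℝ) ≤ 1 - r ^ 2 / 2 := by linarith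
  have hb : (1 - r ^ 2 / 2 : ℝ) ≤ 1 := by nlinarith
  rw [← intervalIntegral.integral_add_adjacent_intervals (hc.intervalIntegrable (-1) (1 - r ^ 2 / 2))
    (hc.intervalIntegrable (1 - r ^ 2 / 2) 1)]
  have h1 : 0 ≤ ∫ t in (-1 : ℝ)..(1 - r ^ 2 / 2), max 0 (t - (1 - r ^ 2 / 2)) :=
    intervalIntegral.integral_nonneg ha fun t _ => le_max_left _ _
  have h2 : ∫ t in (1 - r ^ 2 / 2 : ℝ)..1, (t - (1 - r ^ 2 / 2)) ≤ ∫ t in (1 - r ^ 2 / 2 : ℝ)..1, max 0 (t - (1 - r ^ 2 / 2)) := by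
    apply intervalIntegral.integral_mono_on hb
    · exact (by fun_prop : Continuous (fun t : ℝ => t - (1 - r ^ 2 / 2))).intervalIntegrable _ _
    · exact hc.intervalIntegrable _ _
    · intro t _
      exact le_max_right _ _
  have h3 : ∫ t in (1 - r ^ 2 / 2 : ℝ)..1, (t - (1 - r ^ 2 / 2)) = r ^ 4 / 8 := by
    rw [intervalIntegral.integral_sub (f := fun t : ℝ => t) (continuous_id.intervalIntegrable _ _) (continuous_const.intervalIntegrable _ _)]
    rw [integral_id, intervalIntegral.integral_const]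
    simp only [smul_eq_mul]
    ring
  linarith

theorem xw5_dist (n m : S2) : dist n m ^ 2 = 2 - 2 * ∑ i, (m : E3) i * (n : E3) i := by
  have h1 := NullS.kd_S2 0 m n
  have h2 := NullS.kd_norm 0 (m : E3) (n : E3)
  rw [h1] at h2
  have h3 : dist n m = ‖(m : E3) - (n : E3)‖ := by
    rw [dist_comm, Subtype.dist_eq, dist_eq_norm]
  rw [h3]
  linarith

theorem xw5_nsq {L H : ℝ} (hL : 0 ≤ L) {v w : Fin 3 → ℝ} (hv : vnrm v ≤ L) (hw : vnrm w ≤ L)
    (hd : vnrm (fun i => v i - w i) ≤ H) : nsq v - nsq w ≤ 2 * L * H := by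
  have h1 := NullS.vnrm_cs (fun i => v i - w i) v
  have h2 := NullS.vnrm_cs (fun i => v i - w i) w
  have h0 := NullS.vnrm_nonneg (fun i => v i - w i)
  have h3 : vnrm (fun i => v i - w i) * vnrm v ≤ H * L :=
    mul_le_mul hd hv (NullS.vnrm_nonneg _) (h0.trans hd)
  have h4 : vnrm (fun i => v i - w i) * vnrm w ≤ H * L :=
    mul_le_mul hd hw (NullS.vnrm_nonneg _) (h0.trans hd)
  have h5 : nsq v - nsq w = ∑ i, (v i - w i) * v i + ∑ i, (v i - w i) * w i := by
    unfold nsq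
    rw [← Finset.sum_sub_distrib, ← Finset.sum_add_distrib]
    refine Finset.sum_congr rfl fun i _ => ?_
    ring
  rw [h5]
  linarith

theorem xw5_cont (κ : ℕ) (X1 : ℝ) {V : E3 → Fin 3 → ℝ} (hV : TF V) : Continuous (fun n : S2 => Omk κ X1 (nsq (V n))) := by
  have h1 : ∀ i, Continuous (fun n : S2 => V n i) := fun i => (hV.sm i).continuous.comp continuous_subtype_val
  unfold Omk nsq
  refine Continuous.pow (Continuous.max (Continuous.sub ?_ continuous_const) continuous_const) _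
  exact continuous_finset_sum _ fun i _ => (h1 i).pow 2

theorem cap_bd (κ : ℕ) {θ L H : ℝ} (hθ : 0 < θ) (hL : 0 ≤ L) (hH : 0 ≤ H) : ∃ c : ℝ, 0 < c ∧ ∀ (X1 : ℝ) (V : E3 → Fin 3 → ℝ),
    TF V → (∀ n : S2, vnrm (V n) ≤ L) → (∀ n n' : S2, vnrm (fun i => V n i - V n' i) ≤ H * √(dist n n')) →
      ∀ n0 : S2, X1 + θ < nsq (V n0) → c ≤ ∫ n : S2, Omk κ X1 (nsq (V n)) ∂sm := by
  have hLH : 0 ≤ L * H := mul_nonneg hL hH
  have hden : 0 < 4 * (L * H) + 1 := by linarith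
  have hq : 0 < θ / (4 * (L * H) + 1) := div_pos hθ hden
  obtain ⟨r, hr⟩ : ∃ r : ℝ, r = min 1 ((θ / (4 * (L * H) + 1)) ^ 2) := ⟨_, rfl⟩
  have hr0 : 0 < r := by rw [hr]; exact lt_min one_pos (by positivity)
  have hr1 : r ≤ 1 := by rw [hr]; exact min_le_left _ _
  have hsr : √r ≤ θ / (4 * (L * H) + 1) := by
    rw [Real.sqrt_le_left hq.le, hr]
    exact min_le_right _ _
  have hpi := Real.pi_pos
  refine ⟨(θ / 2) ^ (κ + 2) * (2 * Real.pi * (r ^ 4 / 8)), by positivity, ?_⟩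
  intro X1 V hV hVL hVH n0 hn0
  have hFc : Continuous (fun t : ℝ => max 0 (t - (1 - r ^ 2 / 2))) := by fun_prop
  have hbox := NullS.hat_box (F := fun t : ℝ => max 0 (t - (1 - r ^ 2 / 2))) hFc.continuousOn n0
  have hdc : Continuous (fun m : S2 => ∑ i, (n0 : E3) i * (m : E3) i) := NullS.k4_dot_cont n0
  have hpt : ∀ n : S2, (θ / 2) ^ (κ + 2) * max 0 ((∑ i, (n0 : E3) i * (n : E3) i) - (1 - r ^ 2 / 2)) ≤ Omk κ X1 (nsq (V n)) := by
    intro n
    have hO : 0 ≤ Omk κ X1 (nsq (V n)) := by unfold Omk; positivity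
    by_cases ht : (∑ i, (n0 : E3) i * (n : E3) i) - (1 - r ^ 2 / 2) ≤ 0
    · rw [max_eq_left ht, mul_zero]
      exact hO
    · push Not at ht
      rw [max_eq_right ht.le]
      have hd2 := xw5_dist n n0
      have hdr : dist n n0 ≤ r := by
        apply le_of_sq_le_sq _ hr0.le
        rw [hd2]
        linarith
      have hsd : √(dist n0 n) ≤ θ / (4 * (L * H) + 1) := by
        rw [dist_comm]
        exact (Real.sqrt_le_sqrt hdr).trans hsr
      have hd : vnrm (fun i => V n0 i - V n i) ≤ H * (θ / (4 * (L * H) + 1)) :=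
        (hVH n0 n).trans (mul_le_mul_of_nonneg_left hsd hH)
      have h1 := xw5_nsq hL (hVL n0) (hVL n) hd
      have h2 : 2 * L * (H * (θ / (4 * (L * H) + 1))) ≤ θ / 2 := by
        have e : 2 * L * (H * (θ / (4 * (L * H) + 1))) = (2 * (L * H) * θ) / (4 * (L * H) + 1) := by ring
        rw [e, div_le_iff₀ hden]
        nlinarith
      have h3 : θ / 2 ≤ max (nsq (V n) - X1) 0 := le_max_of_le_left (by linarith)
      have h4 : (θ / 2) ^ (κ + 2) ≤ Omk κ X1 (nsq (V n)) := by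
        unfold Omk
        exact pow_le_pow_left₀ (by linarith) h3 _
      have h5 : (∑ i, (n0 : E3) i * (n : E3) i) ≤ 1 := (NullS.dot_mem n0 n).2
      have h6 : (∑ i, (n0 : E3) i * (n : E3) i) - (1 - r ^ 2 / 2) ≤ 1 := by nlinarith
      calc (θ / 2) ^ (κ + 2) * ((∑ i, (n0 : E3) i * (n : E3) i) - (1 - r ^ 2 / 2)) ≤ (θ / 2) ^ (κ + 2) * 1 :=
            mul_le_mul_of_nonneg_left h6 (by positivity)
        _ ≤ _ := by rw [mul_one]; exact h4
  have hi1 : Continuous (fun n : S2 => (θ / 2) ^ (κ + 2) * max 0 ((∑ i, (n0 : E3) i * (n : E3) i) - (1 - r ^ 2 / 2))) :=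
    continuous_const.mul (hFc.comp hdc)
  have hmono := integral_mono (NullS.int_S2 hi1) (NullS.int_S2 (xw5_cont κ X1 hV)) hpt
  refine le_trans ?_ hmono
  rw [integral_const_mul, hbox]
  refine mul_le_mul_of_nonneg_left ?_ (by positivity)
  exact mul_le_mul_of_nonneg_left (xw5_int hr0 hr1) (by positivity)

end H17S
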