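import Pool.Agent.Lib.H17S.X.XF
import Pool.Agent.Lib.H17S.X.W1
import Pool.Agent.Lib.H17S.X.W2
import Pool.Agent.Lib.H17S.X.W3
import Pool.Agent.Lib.H17S.X.W5

set_option autoImplicit false

/-!
Chunk XW6 (M/L). The core of the weak maximum principle, for fields `V` with `alD V` close to `alt`.
Proof. `Cg` from `alt_far`, `Λ = Cg + 1`, `cX` from `Xc_bd` (lower bound `cX <= Xc`), `s0 = √(cX/2)`; `G0` from `w3_num` (with `Λ`, `A`, `p2' = max p2 0`, `s0`); `k0` from `betam_blow` with `G0`. Let `k ∈ (0, k0]`, `Gm` from `betam_X1_bd` (`Γ <= Gm`, where `Γ = - betam P N X1`, `X1 = (1 - k) Xc P N`),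
`L = A (1 + |Gm|)`, `K1 = 160 Λ / s0`, `κ` with `K1² L² <= κ + 2` (`1 <= G0 <= Γ`, so `K1² L² <= Γ² (κ + 2)`), `c` from `cap_bd κ hθ`. `η ∈ (0, 1/2]` with `4 (2η)² L² 4π (κ + 2) (L²)^(κ+1) < c/4`.
Given `V`, `P`, `N`, `τ`: `c, Q` from `alt_far`. `lip_smooth` for the real and imaginary parts of `c` and of the `Q . i j` with `δ = η/20`: `c1, c2 : E3 → ℝ`, `Q1, Q2 : Fin 3 → Fin 3 → E3 → ℝ`. `p0 y = 2 * ffun (fun y => Γ + c1 y) Q1 V y`, `q0 y = 2 * ffun (fun y => - N + c2 y) Q2 V y`.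
For `n` with `nsq (V n) > X1 > 0`: `alt = Γ - N i + c n + ∑ Q V V/X`, so `|p0 n - 2 Re alt| <= 2 (δ + 9 δ) = η` and with the hypothesis `|dv V n - p0 n| <= 2 η`; the same for `q0`. `|c1 n| <= Cg + δ <= Λ`, `|Q1 a b n| <= Λ`, `|rl j . | <= Cg <= Λ` (`rl` of `Γ + c1` is `rl` of `c1`).
`|p0 - 2Γ| = 2 |c1 + ∑ Q1 ..| <= 20 Λ` (`ffun_bd`). `gd (2 F) = 2 gd F` (linearity, `gd_mul` with a constant or `rl_cmul`), so by `ff_V`, `ff_JV` the numbers `D1 = ∑ V_i gd p0 i`, `D2 = ∑ (cr V)_i gd q0 i` satisfy the bounds of `w3_num` with `v = vnrm (V n) >= √X1 >= s0` (`X1 >= Xc/2`), `w = vnrm (wv V n)`.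
So `wmp_int` applies with `G = Γ`, `η := 2 η`, and if `nsq (V n0) > X1 + θ` then `c/4 <= Γ²/4 ∫ Omk <= 4 (2η)² L² (..) < c/4`: contradiction.
-/

open MeasureTheory Filter Topology Set
open scoped ContDiff ComplexConjugate

namespace H17S

open NullPen (E3 S2 sm proj)
open NullU (rl crs dtB Tng vnrm)
open NullS (TE PE av)
open Sph

variable {B : ℝ → ℝ → S2 → Fin 3 → Fin 3 → ℝ} {C : ℝ}

theorem xw6_near {V : E3 → Fin 3 → ℝ} {n : S2} {g a δ : ℝ} {c1 : E3 → ℝ} {Q1 : Fin 3 → Fin 3 → E3 → ℝ} {R : Fin 3 → Fin 3 → ℝ}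
    (h1 : |c1 n - a| ≤ δ) (h2 : ∀ i j, |Q1 i j n - R i j| ≤ δ) :
    |2 * ffun (fun y => g + c1 y) Q1 V n - 2 * (g + a + ∑ i, ∑ j, R i j * (V n i * V n j / nsq (V n)))| ≤ 20 * δ := by
  have h3 := ffun_bd (V := V) (G := fun _ => 0) (H := fun i j y => Q1 i j y - R i j) (n := n) h2
  have h4 : ffun (fun _ => 0) (fun i j y => Q1 i j y - R i j) V n =
      ffun (fun y => g + c1 y) Q1 V n - (g + c1 n) - ∑ i, ∑ j, R i j * (V n i * V n j / nsq (V n)) := by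
    unfold ffun
    simp only [sub_mul, Finset.sum_sub_distrib]
    ring
  rw [h4, sub_zero] at h3
  have e1 : 2 * ffun (fun y => g + c1 y) Q1 V n - 2 * (g + a + ∑ i, ∑ j, R i j * (V n i * V n j / nsq (V n))) =
      2 * ((ffun (fun y => g + c1 y) Q1 V n - (g + c1 n) - ∑ i, ∑ j, R i j * (V n i * V n j / nsq (V n))) + (c1 n - a)) := by
    ring
  rw [e1, abs_mul, abs_of_pos (by norm_num : (0 : ℝ) < 2)]
  have h5 := abs_add_le (ffun (fun y => g + c1 y) Q1 V n - (g + c1 n) - ∑ i, ∑ j, R i j * (V n i * V n j / nsq (V n))) (c1 n - a)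
  linarith

theorem xw6_far {V : E3 → Fin 3 → ℝ} {n : S2} {g Λ : ℝ} {c1 : E3 → ℝ} {Q1 : Fin 3 → Fin 3 → E3 → ℝ}
    (h1 : |c1 n| ≤ Λ) (h2 : ∀ i j, |Q1 i j n| ≤ Λ) :
    |2 * ffun (fun y => g + c1 y) Q1 V n - 2 * g| ≤ 20 * Λ := by
  have h3 := ffun_bd (V := V) (G := fun y => g + c1 y) (H := Q1) (n := n) h2
  have e1 : 2 * ffun (fun y => g + c1 y) Q1 V n - 2 * g =
      2 * ((ffun (fun y => g + c1 y) Q1 V n - (g + c1 n)) + c1 n) := by
    ring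
  rw [e1, abs_mul, abs_of_pos (by norm_num : (0 : ℝ) < 2)]
  have h5 := abs_add_le (ffun (fun y => g + c1 y) Q1 V n - (g + c1 n)) (c1 n)
  linarith

theorem xw6_gd {V : E3 → Fin 3 → ℝ} {G : E3 → ℝ} {H : Fin 3 → Fin 3 → E3 → ℝ} (hV : TF V) (hG : ContDiff ℝ ∞ G)
    (hH : ∀ a b, ContDiff ℝ ∞ (H a b)) (n : S2) (hX : 0 < nsq (V n)) (t : Fin 3 → ℝ) :
    ∑ i, t i * gd (fun y => 2 * ffun G H V y) n i = 2 * ∑ i, t i * gd (ffun G H V) n i := by
  have hd : DifferentiableAt ℝ (ffun G H V) (n : E3) := (ffun_cd hV hG hH n hX).differentiableAt (by simp)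
  have h1 : ∀ i, gd (fun y => 2 * ffun G H V y) n i = 2 * gd (ffun G H V) n i := by
    intro i
    unfold gd
    rw [Finset.mul_sum]
    refine Finset.sum_congr rfl fun j _ => ?_
    rw [rl_cmul hd]
    ring
  rw [Finset.mul_sum]
  refine Finset.sum_congr rfl fun i _ => ?_
  rw [h1]
  ring

theorem xw6_re (b N : ℝ) (z : ℂ) (Q : Fin 3 → Fin 3 → ℂ) (x : Fin 3 → Fin 3 → ℝ) :
    (-(b : ℂ) - (N : ℂ) * Complex.I + z + ∑ i, ∑ j, Q i j * ((x i j : ℝ) : ℂ)).re =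
      -b + z.re + ∑ i, ∑ j, (Q i j).re * x i j := by
  simp only [Complex.add_re, Complex.sub_re, Complex.neg_re, Complex.ofReal_re, Complex.re_sum, Complex.mul_re,
    Complex.ofReal_im, Complex.I_re, Complex.I_im, mul_zero, zero_mul, sub_zero]

theorem xw6_im (b N : ℝ) (z : ℂ) (Q : Fin 3 → Fin 3 → ℂ) (x : Fin 3 → Fin 3 → ℝ) :
    (-(b : ℂ) - (N : ℂ) * Complex.I + z + ∑ i, ∑ j, Q i j * ((x i j : ℝ) : ℂ)).im =
      -N + z.im + ∑ i, ∑ j, (Q i j).im * x i j := by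
  simp only [Complex.add_im, Complex.sub_im, Complex.neg_im, Complex.ofReal_im, Complex.im_sum, Complex.mul_im,
    Complex.ofReal_re, Complex.I_re, Complex.I_im, mul_zero, mul_one, zero_add, add_zero, neg_zero, zero_sub]

theorem xw6_rlc (g : ℝ) {c1 : E3 → ℝ} (hc : ContDiff ℝ ∞ c1) (n : S2) (j : Fin 3) : rl j (fun y => g + c1 y) n = rl j c1 n := by
  rw [rl_add (differentiableAt_const g) (hc.differentiable (by simp) _), rl_const, zero_add]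

theorem xw6_lip {F : S2 → ℂ} {Λ : ℝ} (h : ∀ n m : S2, ‖F n - F m‖ ≤ Λ * ‖(n : E3) - m‖) :
    (∀ n m : S2, |(F n).re - (F m).re| ≤ Λ * ‖(n : E3) - m‖) ∧ ∀ n m : S2, |(F n).im - (F m).im| ≤ Λ * ‖(n : E3) - m‖ := by
  constructor
  · intro n m
    rw [← Complex.sub_re]
    exact (Complex.abs_re_le_norm _).trans (h n m)
  · intro n m
    rw [← Complex.sub_im]
    exact (Complex.abs_im_le_norm _).trans (h n m)

theorem wmp_core (hB : Fam B C) {p1 p2 : ℝ} (h1 : 0 < p1) {A : ℝ} (hA : 0 ≤ A) : ∃ k0 ∈ Ioo (0 : ℝ) (1 / 2), ∀ k ∈ Ioc 0 k0,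
    (∀ P N : ℝ, (P, N) ∈ Rec p1 p2 → 1 ≤ - betam P N ((1 - k) * Xc P N)) ∧
    ∀ H θ : ℝ, 0 ≤ H → 0 < θ → ∃ η : ℝ, 0 < η ∧ ∀ τ ∈ Icc (0 : ℝ) 1, ∀ P N : ℝ, (P, N) ∈ Rec p1 p2 → ∀ V : E3 → Fin 3 → ℝ, TF V →
      (∀ n : S2, |dv V n - 2 * (alt B k τ P N n (V n)).re| ≤ η ∧ |cl V n - 2 * (alt B k τ P N n (V n)).im| ≤ η) →
      (∀ n n' : S2, vnrm (fun i => V n i - V n' i) ≤ H * √(dist n n')) →
      (∀ n : S2, vnrm (V n) ≤ A * (1 - betam P N ((1 - k) * Xc P N))) →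
      ∀ n : S2, nsq (V n) ≤ (1 - k) * Xc P N + θ := by
  obtain ⟨Cg, hCg, far⟩ := alt_far hB (p2 := p2) h1
  obtain ⟨cX, CX, hcX, hXc⟩ := Xc_bd (p2 := p2) h1
  set Λ := Cg + 1 with hΛ
  have hΛ0 : 0 ≤ Λ := by positivity
  set s0 := √(cX / 2) with hs0d
  have hs0 : 0 < s0 := Real.sqrt_pos.2 (by positivity)
  obtain ⟨G0, hG0, num⟩ := w3_num (p2 := max p2 0) hΛ0 hA (le_max_right _ _) hs0
  obtain ⟨k0, hk0, blow⟩ := betam_blow (p2 := p2) h1 G0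
  refine ⟨k0, hk0, fun k hk => ⟨fun P N hPN => hG0.trans (blow k hk P N hPN), ?_⟩⟩
  intro H θ hH hθ
  have hk1 : k < 1 / 2 := lt_of_le_of_lt hk.2 hk0.2
  obtain ⟨Gm, hGm⟩ := betam_X1_bd (k := k) ⟨hk.1, by linarith⟩ (p2 := p2) h1
  set L := A * (1 + |Gm|) with hLd
  have hL : 0 ≤ L := by positivity
  set K1 := 160 * Λ / s0 with hK1d
  have hK1 : 0 ≤ K1 := by positivity
  obtain ⟨κ, hκ⟩ := exists_nat_ge (K1 ^ 2 * L ^ 2)
  obtain ⟨c, hc, cap⟩ := cap_bd κ hθ hL hH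
  set Mc := 16 * L ^ 2 * (4 * Real.pi * ((κ + 2) * (L ^ 2) ^ (κ + 1))) with hMcd
  have hMc : 0 ≤ Mc := by positivity
  set η := min (1 / 2) (c / (4 * (Mc + 1))) with hηd
  have hη : 0 < η := lt_min (by norm_num) (by positivity)
  have hη1 : η ≤ 1 / 2 := min_le_left _ _
  have hη2 : η * (4 * (Mc + 1)) ≤ c := by
    have h2 : η ≤ c / (4 * (Mc + 1)) := min_le_right _ _
    rwa [le_div_iff₀ (by positivity)] at h2
  refine ⟨η, hη, fun τ hτ P N hPN V hV hd hhol hbd n0 => ?_⟩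
  by_contra hcon
  push Not at hcon
  have hcX1 := (hXc P N hPN).1
  have hX1h : cX / 2 ≤ (1 - k) * Xc P N := by nlinarith
  have hX1 : 0 < (1 - k) * Xc P N := by linarith
  have hblow := blow k hk P N hPN
  have hGmP := hGm P N hPN
  obtain ⟨cc, Q, bc, bQ, lc, lQ, hfar⟩ := far k ⟨hk.1, hk1.le⟩ τ hτ P N hPN
  set X1 := (1 - k) * Xc P N with hX1d
  set Γ := - betam P N X1 with hΓd
  have hΓ1 : 1 ≤ Γ := hG0.trans hblow
  have hδ : 0 < η / 20 := by positivity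
  obtain ⟨c1, sc1, nc1, rc1⟩ := lip_smooth hCg (xw6_lip lc).1 hδ
  obtain ⟨c2, sc2, nc2, rc2⟩ := lip_smooth hCg (xw6_lip lc).2 hδ
  have hQ1 : ∀ i j, ∃ G : E3 → ℝ, ContDiff ℝ ∞ G ∧ (∀ n : S2, |G n - (Q n i j).re| ≤ η / 20) ∧ ∀ (n : S2) (l : Fin 3), |rl l G n| ≤ Cg :=
    fun i j => lip_smooth hCg (xw6_lip (F := fun n => Q n i j) (fun n m => lQ n m i j)).1 hδ
  have hQ2 : ∀ i j, ∃ G : E3 → ℝ, ContDiff ℝ ∞ G ∧ (∀ n : S2, |G n - (Q n i j).im| ≤ η / 20) ∧ ∀ (n : S2) (l : Fin 3), |rl l G n| ≤ Cg :=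
    fun i j => lip_smooth hCg (xw6_lip (F := fun n => Q n i j) (fun n m => lQ n m i j)).2 hδ
  choose Q1 sQ1 nQ1 rQ1 using hQ1
  choose Q2 sQ2 nQ2 rQ2 using hQ2
  have hCΛ : Cg ≤ Λ := by rw [hΛ]; linarith
  have sg1 : ContDiff ℝ ∞ (fun y => Γ + c1 y) := contDiff_const.add sc1
  have sg2 : ContDiff ℝ ∞ (fun y => -N + c2 y) := contDiff_const.add sc2
  have hnear : ∀ n : S2, X1 < nsq (V n) → |dv V n - 2 * ffun (fun y => Γ + c1 y) Q1 V n| ≤ 2 * η ∧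
      |cl V n - 2 * ffun (fun y => -N + c2 y) Q2 V n| ≤ 2 * η := by
    intro n hn
    have e := hfar n (V n) (hV.tan n) hn.le
    have er : (alt B k τ P N n (V n)).re = Γ + (cc n).re + ∑ i, ∑ j, (Q n i j).re * (V n i * V n j / nsq (V n)) := by
      rw [e, xw6_re]
    have ei : (alt B k τ P N n (V n)).im = -N + (cc n).im + ∑ i, ∑ j, (Q n i j).im * (V n i * V n j / nsq (V n)) := by
      rw [e, xw6_im]
    have a1 := xw6_near (V := V) (n := n) (g := Γ) (nc1 n) (fun i j => nQ1 i j n)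
    have a2 := xw6_near (V := V) (n := n) (g := -N) (nc2 n) (fun i j => nQ2 i j n)
    rw [← er] at a1
    rw [← ei] at a2
    obtain ⟨d1, d2⟩ := hd n
    rw [abs_le] at a1 a2 d1 d2
    constructor
    · rw [abs_le]
      constructor <;> linarith [a1.1, a1.2, d1.1, d1.2]
    · rw [abs_le]
      constructor <;> linarith [a2.1, a2.2, d2.1, d2.2]
  have hdiv : ∀ n : S2, X1 < nsq (V n) → Γ ^ 2 - K1 * vnrm (wv V n) ≤
      (2 * ffun (fun y => Γ + c1 y) Q1 V n) * dv V n + (2 * ffun (fun y => -N + c2 y) Q2 V n) * cl V n +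
        ∑ i, V n i * gd (fun y => 2 * ffun (fun y => Γ + c1 y) Q1 V y) n i -
        ∑ i, cr n (V n) i * gd (fun y => 2 * ffun (fun y => -N + c2 y) Q2 V y) n i := by
    intro n hn
    have hX : 0 < nsq (V n) := hX1.trans hn
    obtain ⟨n1, n2⟩ := hnear n hn
    have b1 : |c1 n| ≤ Λ := by
      have h3 := nc1 n
      have h4 := (Complex.abs_re_le_norm (cc n)).trans (bc n)
      rw [abs_le] at h3 h4 ⊢
      constructor <;> linarith [h3.1, h3.2, h4.1, h4.2]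
    have b2 : |c2 n| ≤ Λ := by
      have h3 := nc2 n
      have h4 := (Complex.abs_im_le_norm (cc n)).trans (bc n)
      rw [abs_le] at h3 h4 ⊢
      constructor <;> linarith [h3.1, h3.2, h4.1, h4.2]
    have b3 : ∀ i j, |Q1 i j n| ≤ Λ := by
      intro i j
      have h3 := nQ1 i j n
      have h4 := (Complex.abs_re_le_norm (Q n i j)).trans (bQ n i j)
      rw [abs_le] at h3 h4 ⊢
      constructor <;> linarith [h3.1, h3.2, h4.1, h4.2]
    have b4 : ∀ i j, |Q2 i j n| ≤ Λ := by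
      intro i j
      have h3 := nQ2 i j n
      have h4 := (Complex.abs_im_le_norm (Q n i j)).trans (bQ n i j)
      rw [abs_le] at h3 h4 ⊢
      constructor <;> linarith [h3.1, h3.2, h4.1, h4.2]
    have f1 := ff_V (V := V) hV sg1 sQ1 n hX hΛ0 (fun j => by rw [xw6_rlc Γ sc1]; exact (rc1 n j).trans hCΛ)
      (fun a b j => (rQ1 a b n j).trans hCΛ) b3
    have f2 := ff_JV (V := V) hV sg2 sQ2 n hX hΛ0 (fun j => by rw [xw6_rlc (-N) sc2]; exact (rc2 n j).trans hCΛ)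
      (fun a b j => (rQ2 a b n j).trans hCΛ) b4
    rw [xw6_gd hV sg1 sQ1 n hX (V n), xw6_gd hV sg2 sQ2 n hX (cr n (V n))]
    have g1 := xw6_far (V := V) (g := Γ) b1 b3
    have g2 := xw6_far (V := V) (g := -N) b2 b4
    have hs : s0 ≤ vnrm (V n) := Real.sqrt_le_sqrt (hX1h.trans hn.le)
    have hN : |N| ≤ max p2 0 := (abs_le.2 hPN.2).trans (le_max_left _ _)
    refine num Γ (vnrm (V n)) (vnrm (wv V n)) (dv V n) (cl V n) (2 * ffun (fun y => Γ + c1 y) Q1 V n)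
      (2 * ffun (fun y => -N + c2 y) Q2 V n) N (2 * ∑ i, V n i * gd (ffun (fun y => Γ + c1 y) Q1 V) n i)
      (2 * ∑ i, cr n (V n) i * gd (ffun (fun y => -N + c2 y) Q2 V) n i) hblow (Real.sqrt_nonneg _) hs ?_ ?_ ?_ g1 ?_ hN ?_ ?_
    · have h3 := hbd n
      have h4 : A * (1 - betam P N X1) = A * (1 + Γ) := by rw [hΓd]; ring
      rw [← h4]
      exact h3
    · exact n1.trans (by linarith)
    · exact n2.trans (by linarith)
    · have h4 : 2 * ffun (fun y => -N + c2 y) Q2 V n + 2 * N = 2 * ffun (fun y => -N + c2 y) Q2 V n - 2 * -N := by ring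
      rw [h4]
      exact g2
    · rw [abs_mul, abs_of_pos (by norm_num : (0 : ℝ) < 2)]
      linarith
    · rw [abs_mul, abs_of_pos (by norm_num : (0 : ℝ) < 2)]
      linarith
  have hΓ2 : 1 ≤ Γ ^ 2 := by nlinarith
  have hbdL : ∀ n : S2, vnrm (V n) ≤ L := by
    intro n
    refine (hbd n).trans ?_
    rw [hLd]
    apply mul_le_mul_of_nonneg_left _ hA
    have h3 := le_abs_self Gm
    linarith
  have hfin := wmp_int hV κ hX1 (by linarith : 0 < Γ) hK1 hL (by positivity : (0 : ℝ) ≤ 2 * η)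
    (fun n hn => contDiffAt_const.mul (ffun_cd hV sg1 sQ1 n hn)) (fun n hn => contDiffAt_const.mul (ffun_cd hV sg2 sQ2 n hn))
    hbdL hnear hdiv (by
      have h3 : (0 : ℝ) ≤ (κ : ℝ) + 2 := by positivity
      nlinarith)
  have hcap := cap X1 V hV hbdL hhol n0 hcon
  have h5 : 4 * (2 * η) ^ 2 * L ^ 2 * (4 * Real.pi * ((κ + 2) * (L ^ 2) ^ (κ + 1))) = η ^ 2 * Mc := by
    rw [hMcd]
    ring
  rw [h5] at hfin
  have h6 : η ^ 2 * Mc < c / 4 := by nlinarith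
  have h7 : c / 4 ≤ Γ ^ 2 / 4 * ∫ n : S2, Omk κ X1 (nsq (V n)) ∂sm := by nlinarith
  linarith

end H17S
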