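import Pool.Agent.Lib.H17S.SD
import Pool.Agent.Lib.H17S.K.K0

set_option autoImplicit false

/-!
H17S module X (existence): definitions. See PROOF.md, section 5.
-/

open MeasureTheory Filter Topology Set
open scoped ContDiff ComplexConjugate

namespace H17S

open NullPen (E3 S2 sm proj)
open NullU (rl crs dtB Tng)
open NullS (TE PE av)

/-- The cut-off vector: `V` if `|V|^2 <= (1 - k) Xc`, otherwise the vector of square length `(1 - k) Xc` in the direction of `V`. -/
noncomputable def cutV (P N k : ℝ) (V : Fin 3 → ℝ) (i : Fin 3) : ℝ :=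
  Real.sqrt (min (nsq V) ((1 - k) * Xc P N) / nsq V) * V i

/-- `al_*` at the cut-off vector. -/
noncomputable def alt (B : ℝ → ℝ → S2 → Fin 3 → Fin 3 → ℝ) (k τ P N : ℝ) (n : S2) (V : Fin 3 → ℝ) : ℂ :=
  alst P N (fun s => B τ s n) n (cutV P N k V)

/-- Parameters: the rectangle `[p1, p2] × [-p2, p2]`. -/
def Rec (p1 p2 : ℝ) : Set (ℝ × ℝ) := Icc p1 p2 ×ˢ Icc (-p2) p2

/-- Solutions of the regularised equation (with the factor `c` of the homotopy): `V = TE ε (2 Re alt, 2 Im alt)` on the sphere, `av alt = 0`. -/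
structure Sol (B : ℝ → ℝ → S2 → Fin 3 → Fin 3 → ℝ) (k ε τ c P N : ℝ) (g1 g2 : S2 → ℝ) : Prop where
  c1 : Continuous g1
  c2 : Continuous g2
  e1 : ∀ n : S2, g1 n = 2 * (alt B k τ P N n (fun i => c * TE ε g1 g2 n i)).re
  e2 : ∀ n : S2, g2 n = 2 * (alt B k τ P N n (fun i => c * TE ε g1 g2 n i)).im
  m1 : av g1 = 0
  m2 : av g2 = 0

end H17S
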