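import Pool.Agent.Lib.H17S.A.A7
import Pool.Agent.Lib.H17S.A.A8
import Pool.Agent.Lib.H17S.A.A9

set_option autoImplicit false

/-!
Outputs of module A (the function `alst`) used in the topological part of module X: `alt_cont` (A6), `alt_bd`, `alt_near` (A7), `alt_zero` (A8),
`num_bd`, `beta_le` (A9).
-/

namespace H17S

theorem beta_zero {P N : ℝ} : betam P N 0 = P := by
  unfold betam
  simp

end H17S
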