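import Pool.Agent.Lib.H17S.A.A9
import Pool.Agent.Lib.H17S.A.A10

/-!
Outputs of modules A and M used by the weak maximum principle: `alt_far`, `alt_unif` (A10), `betam_min`, `betam_blow`, `betam_X1_bd`, `Xc_bd` (A9).
-/
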